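import Mathlib

namespace Pool.Agent.H954R3.TL

open SimpleGraph

variable {W : Type*} {T : SimpleGraph W}

/-- Separation in a tree: if `u` lies between `v` and `w` but not between `v` and `w'`, then `u`
lies between `w` and `w'`. -/
lemma tree_sep (hT : T.IsTree) {v u w w' : W} (hw : T.dist v w = T.dist v u + T.dist u w)
    (hw' : T.dist v w' ≠ T.dist v u + T.dist u w') : T.dist w u ≤ T.dist w w' := by
  classical
  have hc := hT.isConnected
  obtain ⟨p1, hp1, hl1⟩ := hc.exists_path_of_dist v u
  obtain ⟨p2, hp2, hl2⟩ := hc.exists_path_of_dist u w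
  obtain ⟨q1, hq1, hm1⟩ := hc.exists_path_of_dist v w'
  obtain ⟨q2, hq2, hm2⟩ := hc.exists_path_of_dist w' w
  have hp : (p1.append p2).IsPath := by
    apply Walk.isPath_of_length_eq_dist
    rw [Walk.length_append, hl1, hl2, hw]
  have hu1 : u ∉ q1.support := by
    intro h
    apply hw'
    have h1 := congrArg Walk.length (q1.take_spec h)
    rw [Walk.length_append, hm1] at h1
    have h2 := SimpleGraph.dist_le (q1.takeUntil u h)
    have h3 := SimpleGraph.dist_le (q1.dropUntil u h)
    have h4 := hc.dist_triangle (u := v) (v := u) (w := w')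
    omega
  have hu2 : u ∈ q2.support := by
    by_contra h
    have h1 : u ∉ (q1.append q2).support := by
      rw [Walk.mem_support_append_iff]
      tauto
    have h2 : u ∉ (q1.append q2).bypass.support := fun h' =>
      h1 (Walk.support_bypass_subset _ h')
    have h3 := hT.isAcyclic.path_unique ⟨p1.append p2, hp⟩
      ⟨(q1.append q2).bypass, Walk.bypass_isPath _⟩
    have h4 : p1.append p2 = (q1.append q2).bypass := congrArg Subtype.val h3
    apply h2
    rw [← h4, Walk.mem_support_append_iff]
    left
    exact p1.end_mem_support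
  have h1 := congrArg Walk.length (q2.take_spec hu2)
  rw [Walk.length_append, hm2] at h1
  have h3 := SimpleGraph.dist_le (q2.dropUntil u hu2)
  rw [SimpleGraph.dist_comm (u := w) (v := u), SimpleGraph.dist_comm (u := w) (v := w')]
  omega

/-- Points on geodesics. -/
lemma exists_between (hc : T.Connected) (v w : W) (R : ℕ) (hR : R ≤ T.dist v w) :
    ∃ u, T.dist v u = R ∧ T.dist v w = T.dist v u + T.dist u w := by
  obtain ⟨p, hp⟩ := hc.exists_walk_length_eq_dist v w
  refine ⟨p.getVert R, ?_⟩
  have h1 := SimpleGraph.dist_le (p.take R)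
  have h2 := SimpleGraph.dist_le (p.drop R)
  rw [Walk.take_length] at h1
  rw [Walk.drop_length] at h2
  have h3 := hc.dist_triangle (u := v) (v := p.getVert R) (w := w)
  rw [hp] at h1 h2
  rw [min_eq_left hR] at h1
  constructor <;> omega

/-- Balls in a connected graph of bounded degree. -/
lemma ball_cover (hc : T.Connected) (d : ℕ) (hd : ∀ v, (T.neighborSet v).encard ≤ d) (v : W) (n : ℕ) :
    ∃ s : Finset W, s.card ≤ (d + 1) ^ n ∧ ∀ w, T.dist v w ≤ n → w ∈ s := by
  classical
  induction n with
  | zero =>
    refine ⟨{v}, by simp, fun w hw => ?_⟩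
    have : T.dist v w = 0 := by omega
    rw [hc.dist_eq_zero_iff] at this
    simp [this]
  | succ n ih =>
    obtain ⟨s, hs, hs'⟩ := ih
    have hfin : ∀ w, (T.neighborSet w).Finite := fun w => Set.finite_of_encard_le_coe (hd w)
    refine ⟨s.biUnion (fun w => insert w (hfin w).toFinset), ?_, ?_⟩
    · calc (s.biUnion (fun w => insert w (hfin w).toFinset)).card
          ≤ ∑ w ∈ s, (insert w (hfin w).toFinset).card := Finset.card_biUnion_le
        _ ≤ ∑ w ∈ s, (d + 1) := by
            apply Finset.sum_le_sum
            intro w _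
            refine (Finset.card_insert_le _ _).trans ?_
            have h1 := hd w
            have h2 : (T.neighborSet w).encard = ((hfin w).toFinset.card : ℕ∞) :=
              (hfin w).encard_eq_coe_toFinset_card
            rw [h2] at h1
            have h3 : (hfin w).toFinset.card ≤ d := by exact_mod_cast h1
            omega
        _ = s.card * (d + 1) := by rw [Finset.sum_const, smul_eq_mul]
        _ ≤ (d + 1) ^ n * (d + 1) := Nat.mul_le_mul_right _ hs
        _ = (d + 1) ^ (n + 1) := by ring
    · intro w hw
      rw [Finset.mem_biUnion]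
      by_cases h : T.dist v w ≤ n
      · exact ⟨w, hs' w h, Finset.mem_insert_self _ _⟩
      · have hn : T.dist v w = n + 1 := by omega
        obtain ⟨u, hu1, hu2⟩ := exists_between hc v w n (by omega)
        have hu3 : T.dist u w = 1 := by omega
        refine ⟨u, hs' u (by omega), ?_⟩
        rw [SimpleGraph.dist_eq_one_iff_adj] at hu3
        rw [Finset.mem_insert, Set.Finite.mem_toFinset]
        right
        exact hu3

end Pool.Agent.H954R3.TL
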