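import Mathlib
import Pool.Agent.H954R3.TreeLem

namespace Pool.Agent.H954R3.Core

open SimpleGraph Finset Pool.Agent.H954R3.TL

/-- The descendants at depth `l` of the node `i` of the dyadic tree. -/
def desc (l i : ℕ) : Finset ℕ := Finset.Ico (2 ^ l * i) (2 ^ l * (i + 1))

lemma mem_desc {l i m : ℕ} : m ∈ desc l i ↔ m / 2 ^ l = i := by
  have h : 0 < 2 ^ l := by positivity
  rw [desc, Finset.mem_Ico]
  constructor
  · rintro ⟨h1, h2⟩
    apply le_antisymm
    · exact Nat.lt_succ_iff.mp ((Nat.div_lt_iff_lt_mul h).mpr (by rw [mul_comm]; exact h2))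
    · exact (Nat.le_div_iff_mul_le h).mpr (by rw [mul_comm]; exact h1)
  · rintro rfl
    exact ⟨Nat.mul_div_le m _, Nat.lt_mul_div_succ m h⟩

lemma card_desc (l i : ℕ) : (desc l i).card = 2 ^ l := by
  rw [desc, Nat.card_Ico, mul_add, mul_one, Nat.add_sub_cancel_left]

variable {W : Type*} {T : SimpleGraph W} {g : ℕ → ℕ → W} {lam : ℕ}

lemma path_dist (hc : T.Connected) (hvert : ∀ t m, T.dist (g t (m / 2)) (g (t + 1) m) ≤ lam)
    (l : ℕ) : ∀ t m, T.dist (g t (m / 2 ^ l)) (g (t + l) m) ≤ lam * l := by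
  induction l with
  | zero => intro t m; simp
  | succ l ih =>
    intro t m
    have h1 := ih t (m / 2)
    have h2 := hvert (t + l) m
    have h3 : m / 2 ^ (l + 1) = m / 2 / 2 ^ l := by
      rw [Nat.div_div_eq_div_mul, pow_succ, mul_comm]
    rw [h3]
    have h4 := hc.dist_triangle (u := g t (m / 2 / 2 ^ l)) (v := g (t + l) (m / 2))
      (w := g (t + (l + 1)) m)
    rw [← add_assoc] at h4 ⊢
    calc _ ≤ _ := h4
      _ ≤ lam * l + lam := Nat.add_le_add h1 h2
      _ = lam * (l + 1) := by ring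

lemma geom (l0 n : ℕ) : ∑ l ∈ Finset.Ico l0 (l0 + n), (3 / 4 : ℝ) ^ l
    = 4 * ((3 / 4) ^ l0 - (3 / 4) ^ (l0 + n)) := by
  induction n with
  | zero => simp
  | succ n ih =>
    rw [← add_assoc, Finset.sum_Ico_succ_top (by omega), ih, pow_succ]
    ring

/-- Claim 1: below every node there is at every depth a node with nearly the same image. -/
lemma claim1 (hT : T.IsTree) {D : ℕ}
    (hball : ∀ u n, ∃ s : Finset W, s.card ≤ D ^ n ∧ ∀ w, T.dist u w ≤ n → w ∈ s)
    (hlam : 0 < lam)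
    (hvert : ∀ t m, T.dist (g t (m / 2)) (g (t + 1) m) ≤ lam)
    (hhor : ∀ t i, T.dist (g t i) (g t (i + 1)) ≤ lam) (C : ℝ)
    (hfib : ∀ t i l u, (Nat.card {m // m ∈ desc l i ∧ g (t + l) m = u} : ℝ) ≤ C * (3 / 2) ^ l) :
    ∃ c0 : ℕ, ∀ t i L, ∃ m ∈ desc L i, T.dist (g t i) (g (t + L) m) ≤ c0 := by
  classical
  have hc := hT.connected
  have hfib' : ∀ t i l u, (((desc l i).filter (fun m => g (t + l) m = u)).card : ℝ)
      ≤ C * (3 / 2) ^ l := by
    intro t i l u
    have := hfib t i l u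
    rwa [show Nat.card {m // m ∈ desc l i ∧ g (t + l) m = u}
      = ((desc l i).filter (fun m => g (t + l) m = u)).card from by
        rw [← Nat.card_eq_finsetCard]
        apply Nat.card_congr
        exact Equiv.subtypeEquivRight (fun m => by simp)] at this
  have hC : 0 ≤ C := by
    have := hfib' 0 0 0 (g 0 0)
    simp only [pow_zero, mul_one] at this
    exact le_trans (by positivity) this
  obtain ⟨l1, hl1⟩ : ∃ l1 : ℕ, (D : ℝ) ^ lam * C * 4 * (3 / 4) ^ l1 < 1 := by
    have h1 := (tendsto_pow_atTop_nhds_zero_of_lt_one (r := (3 / 4 : ℝ)) (by norm_num)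
      (by norm_num)).const_mul ((D : ℝ) ^ lam * C * 4)
    rw [mul_zero] at h1
    exact (h1.eventually_lt_const one_pos).exists
  set l0 := l1 + 1 with hl0
  have hl0' : (D : ℝ) ^ lam * C * 4 * (3 / 4) ^ l0 < 1 := by
    have h2 : (3 / 4 : ℝ) ^ l0 ≤ (3 / 4) ^ l1 := by
      rw [hl0, pow_succ]
      have : (0 : ℝ) < (3 / 4) ^ l1 := by positivity
      nlinarith
    refine lt_of_le_of_lt ?_ hl1
    exact mul_le_mul_of_nonneg_left h2 (by positivity)
  set R := lam * l0 with hR
  have hRpos : 0 < R := by positivity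
  refine ⟨R + lam, ?_⟩
  by_contra hcon
  push Not at hcon
  obtain ⟨t, i, L, hfar⟩ := hcon
  set v := g t i with hv
  have hm0 : 2 ^ L * i ∈ desc L i := by
    rw [mem_desc]
    exact Nat.mul_div_cancel_left _ (by positivity)
  obtain ⟨u, hu1, hu2⟩ := exists_between hc v (g (t + L) (2 ^ L * i)) R
    (by have := hfar _ hm0; omega)
  -- every point at depth `L` is beyond `u`
  have hall : ∀ j, j < 2 ^ L → T.dist v (g (t + L) (2 ^ L * i + j)) =
      T.dist v u + T.dist u (g (t + L) (2 ^ L * i + j)) := by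
    intro j
    induction j with
    | zero => intro _; simpa using hu2
    | succ j ih =>
      intro hj
      have ih' := ih (by omega)
      by_contra hne
      have h1 := tree_sep hT ih' hne
      have h2 := hhor (t + L) (2 ^ L * i + j)
      have h3 : 2 ^ L * i + j ∈ desc L i := by
        rw [mem_desc, Nat.mul_add_div (by positivity), Nat.div_eq_of_lt (by omega), add_zero]
      have h4 := hfar _ h3
      rw [SimpleGraph.dist_comm] at h1
      rw [add_assoc] at h2
      omega
  have hall' : ∀ m ∈ desc L i, T.dist v (g (t + L) m) = T.dist v u + T.dist u (g (t + L) m) := by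
    intro m hm
    rw [desc, Finset.mem_Ico] at hm
    have h1 : m = 2 ^ L * i + (m - 2 ^ L * i) := by omega
    rw [h1]
    apply hall
    have : 2 ^ L * (i + 1) = 2 ^ L * i + 2 ^ L := by ring
    omega
  -- the cut set
  have hcut : ∀ m ∈ desc L i, ∃ l ∈ Finset.Ico l0 (L + 1),
      T.dist u (g (t + l) (m / 2 ^ (L - l))) ≤ lam := by
    intro m hm
    have hex : ∃ l, T.dist v (g (t + l) (m / 2 ^ (L - l))) =
        T.dist v u + T.dist u (g (t + l) (m / 2 ^ (L - l))) :=
      ⟨L, by simpa using hall' m hm⟩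
    obtain ⟨l, hl, hlmin⟩ : ∃ l, (T.dist v (g (t + l) (m / 2 ^ (L - l))) =
        T.dist v u + T.dist u (g (t + l) (m / 2 ^ (L - l)))) ∧
        ∀ l' < l, ¬ (T.dist v (g (t + l') (m / 2 ^ (L - l'))) =
        T.dist v u + T.dist u (g (t + l') (m / 2 ^ (L - l')))) :=
      ⟨Nat.find hex, Nat.find_spec hex, fun l' h => Nat.find_min hex h⟩
    have hlL : l ≤ L := by
      by_contra h
      exact hlmin L (by omega) (by simpa using hall' m hm)
    have hl0 : l ≠ 0 := by
      rintro rfl
      rw [mem_desc] at hm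
      simp only [add_zero, Nat.sub_zero, hm, ← hv, SimpleGraph.dist_self] at hl
      omega
    have hprev := hlmin (l - 1) (by omega)
    have e1 : m / 2 ^ (L - (l - 1)) = m / 2 ^ (L - l) / 2 := by
      rw [Nat.div_div_eq_div_mul, ← pow_succ]
      congr 2
      omega
    have h1 := tree_sep hT hl hprev
    rw [e1] at h1
    have h2 := hvert (t + (l - 1)) (m / 2 ^ (L - l))
    have e2 : t + (l - 1) + 1 = t + l := by omega
    rw [e2, SimpleGraph.dist_comm] at h2
    have h3 : T.dist u (g (t + l) (m / 2 ^ (L - l))) ≤ lam := by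
      rw [SimpleGraph.dist_comm]; exact h1.trans h2
    refine ⟨l, ?_, h3⟩
    have h4 := path_dist hc hvert l t (m / 2 ^ (L - l))
    have e3 : m / 2 ^ (L - l) / 2 ^ l = i := by
      rw [Nat.div_div_eq_div_mul, ← pow_add, Nat.sub_add_cancel hlL]
      exact mem_desc.mp hm
    rw [e3, ← hv, hl, hu1, hR] at h4
    rw [Finset.mem_Ico]
    refine ⟨?_, by omega⟩
    have h5 : lam * l0 ≤ lam * l := by omega
    exact Nat.le_of_mul_le_mul_left h5 hlam
  obtain ⟨s, hs1, hs2⟩ := hball u lam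
  have hsub : desc L i ⊆ (Finset.Ico l0 (L + 1)).biUnion (fun l =>
      (desc L i).filter (fun m => g (t + l) (m / 2 ^ (L - l)) ∈ s)) := by
    intro m hm
    obtain ⟨l, hl, h⟩ := hcut m hm
    rw [Finset.mem_biUnion]
    exact ⟨l, hl, Finset.mem_filter.mpr ⟨hm, hs2 _ h⟩⟩
  have hcard : ∀ l ∈ Finset.Ico l0 (L + 1),
      (((desc L i).filter (fun m => g (t + l) (m / 2 ^ (L - l)) ∈ s)).card : ℝ)
        ≤ 2 ^ L * ((D : ℝ) ^ lam * C) * (3 / 4) ^ l := by
    intro l hl
    rw [Finset.mem_Ico] at hl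
    have hlL : l ≤ L := by omega
    have h1 : ((desc L i).filter (fun m => g (t + l) (m / 2 ^ (L - l)) ∈ s)).card
        ≤ 2 ^ (L - l) * ((desc l i).filter (fun m => g (t + l) m ∈ s)).card := by
      apply Finset.card_le_mul_card_image_of_maps_to (f := fun m => m / 2 ^ (L - l))
      · intro m hm
        rw [Finset.mem_filter] at hm ⊢
        refine ⟨?_, hm.2⟩
        rw [mem_desc, Nat.div_div_eq_div_mul, ← pow_add, Nat.sub_add_cancel hlL]
        exact mem_desc.mp hm.1
      · intro b hb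
        calc _ ≤ (desc (L - l) b).card := by
              apply Finset.card_le_card
              intro m hm
              rw [Finset.mem_filter] at hm
              exact mem_desc.mpr hm.2
          _ = 2 ^ (L - l) := card_desc _ _
    have h2 : (((desc l i).filter (fun m => g (t + l) m ∈ s)).card : ℝ)
        ≤ (D : ℝ) ^ lam * (C * (3 / 2) ^ l) := by
      have h3 : (desc l i).filter (fun m => g (t + l) m ∈ s) ⊆
          s.biUnion (fun w => (desc l i).filter (fun m => g (t + l) m = w)) := by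
        intro m hm
        rw [Finset.mem_filter] at hm
        rw [Finset.mem_biUnion]
        exact ⟨_, hm.2, Finset.mem_filter.mpr ⟨hm.1, rfl⟩⟩
      calc (((desc l i).filter (fun m => g (t + l) m ∈ s)).card : ℝ)
          ≤ ((∑ w ∈ s, ((desc l i).filter (fun m => g (t + l) m = w)).card : ℕ) : ℝ) := by
            exact_mod_cast (Finset.card_le_card h3).trans Finset.card_biUnion_le
        _ = ∑ w ∈ s, (((desc l i).filter (fun m => g (t + l) m = w)).card : ℝ) := by
            push_cast; rfl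
        _ ≤ ∑ w ∈ s, C * (3 / 2) ^ l := Finset.sum_le_sum (fun w _ => hfib' t i l w)
        _ = s.card * (C * (3 / 2) ^ l) := by rw [Finset.sum_const, nsmul_eq_mul]
        _ ≤ (D : ℝ) ^ lam * (C * (3 / 2) ^ l) := by
            apply mul_le_mul_of_nonneg_right _ (by positivity)
            exact_mod_cast hs1
    calc (((desc L i).filter (fun m => g (t + l) (m / 2 ^ (L - l)) ∈ s)).card : ℝ)
        ≤ 2 ^ (L - l) * (((desc l i).filter (fun m => g (t + l) m ∈ s)).card : ℝ) := by
          exact_mod_cast h1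
      _ ≤ 2 ^ (L - l) * ((D : ℝ) ^ lam * (C * (3 / 2) ^ l)) :=
          mul_le_mul_of_nonneg_left h2 (by positivity)
      _ = 2 ^ L * ((D : ℝ) ^ lam * C) * (3 / 4) ^ l := by
          have h4 : (2 : ℝ) ^ L = 2 ^ (L - l) * 2 ^ l := by
            rw [← pow_add, Nat.sub_add_cancel hlL]
          have h5 : (2 : ℝ) ^ l * (3 / 4) ^ l = (3 / 2) ^ l := by
            rw [← mul_pow]; norm_num
          rw [h4, ← h5]
          ring
  have hL0 : l0 ≤ L + 1 := by
    by_contra h
    obtain ⟨l, hl, _⟩ := hcut _ hm0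
    rw [Finset.mem_Ico] at hl
    omega
  have htot : (2 : ℝ) ^ L ≤ 2 ^ L * ((D : ℝ) ^ lam * C) * (4 * (3 / 4) ^ l0) := by
    calc (2 : ℝ) ^ L = ((desc L i).card : ℝ) := by rw [card_desc]; norm_num
      _ ≤ ((∑ l ∈ Finset.Ico l0 (L + 1),
            ((desc L i).filter (fun m => g (t + l) (m / 2 ^ (L - l)) ∈ s)).card : ℕ) : ℝ) := by
          exact_mod_cast (Finset.card_le_card hsub).trans Finset.card_biUnion_le
      _ = ∑ l ∈ Finset.Ico l0 (L + 1),
            (((desc L i).filter (fun m => g (t + l) (m / 2 ^ (L - l)) ∈ s)).card : ℝ) := by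
          push_cast; rfl
      _ ≤ ∑ l ∈ Finset.Ico l0 (L + 1), 2 ^ L * ((D : ℝ) ^ lam * C) * (3 / 4) ^ l :=
          Finset.sum_le_sum hcard
      _ = 2 ^ L * ((D : ℝ) ^ lam * C) * ∑ l ∈ Finset.Ico l0 (L + 1), (3 / 4) ^ l := by
          rw [Finset.mul_sum]
      _ ≤ 2 ^ L * ((D : ℝ) ^ lam * C) * (4 * (3 / 4) ^ l0) := by
          apply mul_le_mul_of_nonneg_left _ (by positivity)
          have h1 := geom l0 (L + 1 - l0)
          rw [show l0 + (L + 1 - l0) = L + 1 by omega] at h1
          rw [h1]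
          have : (0 : ℝ) < (3 / 4) ^ (L + 1) := by positivity
          linarith
  have h2L : (0 : ℝ) < 2 ^ L := by positivity
  have : (2 : ℝ) ^ L * ((D : ℝ) ^ lam * C) * (4 * (3 / 4) ^ l0)
      = 2 ^ L * ((D : ℝ) ^ lam * C * 4 * (3 / 4) ^ l0) := by ring
  rw [this] at htot
  have h6 : (2 : ℝ) ^ L * ((D : ℝ) ^ lam * C * 4 * (3 / 4) ^ l0) < 2 ^ L * 1 :=
    mul_lt_mul_of_pos_left hl0' h2L
  linarith


/-- A chain of length `n` of selected nodes ending at level `l`. -/
def Ch (y : ℕ → ℕ) : ℕ → ℕ → Prop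
  | 0, _ => True
  | n + 1, l => ∃ l' < l, y l / 2 ^ (l - l') = y l' ∧ Ch y n l'

lemma Ch_chain (y : ℕ → ℕ) (n : ℕ) : ∀ l, Ch y n l → ∃ c : ℕ → ℕ, c n = l ∧
    ∀ j < n, c j < c (j + 1) ∧ y (c (j + 1)) / 2 ^ (c (j + 1) - c j) = y (c j) := by
  induction n with
  | zero => intro l _; exact ⟨fun _ => l, rfl, fun j hj => absurd hj (by omega)⟩
  | succ n ih =>
    rintro l ⟨l', hl', hanc, hch⟩
    obtain ⟨c, hc1, hc2⟩ := ih l' hch
    refine ⟨fun j => if j ≤ n then c j else l, by simp, fun j hj => ?_⟩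
    by_cases h : j < n
    · have h1 : j ≤ n := by omega
      have h2 : j + 1 ≤ n := by omega
      simp only [h1, h2, if_true]
      exact hc2 j h
    · have h1 : j = n := by omega
      subst h1
      simp only [le_refl, if_true, show ¬ (j + 1 ≤ j) by omega, if_false, hc1]
      exact ⟨hl', hanc⟩

lemma chain_anc {y c : ℕ → ℕ} {n : ℕ}
    (h : ∀ j < n, c j < c (j + 1) ∧ y (c (j + 1)) / 2 ^ (c (j + 1) - c j) = y (c j)) (j k : ℕ)
    (hjk : j + k ≤ n) : c j ≤ c (j + k) ∧ y (c (j + k)) / 2 ^ (c (j + k) - c j) = y (c j) := by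
  induction k with
  | zero => simp
  | succ k ih =>
    obtain ⟨h1, h2⟩ := ih (by omega)
    obtain ⟨h3, h4⟩ := h (j + k) (by omega)
    rw [← add_assoc]
    refine ⟨by omega, ?_⟩
    rw [← h2, ← h4, Nat.div_div_eq_div_mul, ← pow_add]
    congr 2
    omega

/-- Claim 2: arbitrarily many pairwise incomparable nodes with nearly the same image. -/
lemma claim2 (hvert : ∀ t m, T.dist (g t (m / 2)) (g (t + 1) m) ≤ lam) (hc : T.Connected)
    (c0 : ℕ) (h1 : ∀ t i L, ∃ m ∈ desc L i, T.dist (g t i) (g (t + L) m) ≤ c0) (N : ℕ) :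
    ∃ L0 : ℕ, ∀ t i, ∃ δ x : Fin N → ℕ, (∀ j, δ j ≤ L0) ∧ (∀ j, x j ∈ desc (δ j) i) ∧
      (∀ j, T.dist (g t i) (g (t + δ j) (x j)) ≤ c0 + lam) ∧
      ∀ j j', j ≠ j' → ∀ ρ, L0 ≤ ρ → ∀ m, ¬ (m ∈ desc (ρ - δ j) (x j) ∧
        m ∈ desc (ρ - δ j') (x j')) := by
  classical
  refine ⟨N * N + 1, fun t i => ?_⟩
  choose y hy1 hy2 using fun L => h1 t i L
  by_cases hA : ∃ l ≤ N * N, Ch y N l
  · obtain ⟨l, hl, hch⟩ := hA
    obtain ⟨c, hc1, hc2⟩ := Ch_chain y N l hch
    have hanc := fun j k hjk => chain_anc hc2 j k hjk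
    have hcle : ∀ j ≤ N, c j ≤ N * N := by
      intro j hj
      have := (hanc j (N - j) (by omega)).1
      rw [show j + (N - j) = N by omega, hc1] at this
      omega
    -- the child on the chain and its sibling
    let w : ℕ → ℕ := fun j => y (c (j + 1)) / 2 ^ (c (j + 1) - c j - 1)
    have hw : ∀ j < N, w j / 2 = y (c j) := by
      intro j hj
      obtain ⟨h3, h4⟩ := hc2 j hj
      simp only [w]
      rw [Nat.div_div_eq_div_mul, ← pow_succ, ← h4]
      congr 2
      omega
    let z : ℕ → ℕ := fun j => if w j % 2 = 0 then w j + 1 else w j - 1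
    have hz : ∀ j < N, z j / 2 = y (c j) ∧ z j ≠ w j := by
      intro j hj
      have := hw j hj
      simp only [z]
      split_ifs with h <;> omega
    refine ⟨fun j => c j + 1, fun j => z j, fun j => ?_, fun j => ?_, fun j => ?_, ?_⟩
    · have := hcle j j.2.le
      show c j + 1 ≤ N * N + 1
      omega
    · have h3 := (hz j j.2).1
      have h4 := hy1 (c j)
      rw [mem_desc] at h4 ⊢
      rw [← h4, ← h3, Nat.div_div_eq_div_mul, pow_succ, mul_comm]
    · have h3 := hvert (t + c j) (z j)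
      rw [(hz j j.2).1] at h3
      have h4 := hy2 (c j)
      have h5 := hc.dist_triangle (u := g t i) (v := g (t + c j) (y (c j)))
        (w := g (t + c j + 1) (z j))
      show T.dist (g t i) (g (t + (c j + 1)) (z j)) ≤ c0 + lam
      rw [← add_assoc]
      omega
    · have key : ∀ j j' : Fin N, j < j' → ∀ ρ, N * N + 1 ≤ ρ → ∀ m,
          ¬ (m ∈ desc (ρ - (c j + 1)) (z j) ∧ m ∈ desc (ρ - (c j' + 1)) (z j')) := by
        rintro j j' hjj ρ hρ m ⟨hm1, hm2⟩
        have hjj' : (j : ℕ) < j' := hjj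
        rw [mem_desc] at hm1 hm2
        have h3 := (hz j' j'.2).1
        have h4 := hanc (j + 1) (j' - (j + 1)) (by omega)
        rw [show (j : ℕ) + 1 + (j' - (j + 1)) = j' by omega] at h4
        have h5 := (hc2 j j.2).1
        have h6 := hcle j' j'.2.le
        apply (hz j j.2).2
        rw [← hm1]
        simp only [w]
        rw [← h4.2, ← h3, ← hm2]
        simp only [Nat.div_div_eq_div_mul, ← pow_add, ← pow_succ]
        congr 2
        have := h4.1
        omega
      intro j j' hne ρ hρ m hm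
      rcases lt_or_gt_of_ne hne with h | h
      · exact key j j' h ρ hρ m hm
      · exact key j' j h ρ hρ m ⟨hm.2, hm.1⟩
  · push Not at hA
    let h : ℕ → ℕ := fun l => Nat.findGreatest (fun n => Ch y n l) N
    have hspec : ∀ l, Ch y (h l) l := fun l =>
      Nat.findGreatest_spec (P := fun n => Ch y n l) (m := 0) (Nat.zero_le _) trivial
    have hlt : ∀ l ≤ N * N, h l < N := by
      intro l hl
      have h3 : h l ≤ N := Nat.findGreatest_le N
      refine lt_of_le_of_ne h3 (fun h4 => hA l hl ?_)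
      have := hspec l
      rwa [h4] at this
    have hmono : ∀ l' l, l' < l → l ≤ N * N → y l / 2 ^ (l - l') = y l' → h l' < h l := by
      intro l' l hll hl hanc
      have h3 : Ch y (h l' + 1) l := ⟨l', hll, hanc, hspec l'⟩
      have h4 : h l' + 1 ≤ N := hlt l' (by omega)
      exact Nat.le_findGreatest h4 h3
    have hpig : ∃ v ∈ Finset.range N, N < ((Finset.range (N * N + 1)).filter
        (fun l => h l = v)).card := by
      apply Finset.exists_lt_card_fiber_of_mul_lt_card_of_maps_to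
      · intro l hl
        rw [Finset.mem_range] at hl ⊢
        exact hlt l (by omega)
      · simp
    obtain ⟨v, _, hv⟩ := hpig
    obtain ⟨S, hS, hScard⟩ := Finset.exists_subset_card_eq hv.le
    let e : Fin N ≃ S := (Fintype.equivFinOfCardEq (by simpa using hScard)).symm
    have heS : ∀ j, (e j : ℕ) ≤ N * N ∧ h (e j) = v := by
      intro j
      have := hS (e j).2
      rw [Finset.mem_filter, Finset.mem_range] at this
      exact ⟨by omega, this.2⟩
    refine ⟨fun j => e j, fun j => y (e j), fun j => ?_, fun j => hy1 _, fun j => ?_, ?_⟩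
    · have := (heS j).1
      show (e j : ℕ) ≤ N * N + 1
      omega
    · exact (hy2 _).trans (by omega)
    · have key : ∀ j j' : Fin N, (e j : ℕ) < e j' → ∀ ρ, N * N + 1 ≤ ρ → ∀ m,
          ¬ (m ∈ desc (ρ - e j) (y (e j)) ∧ m ∈ desc (ρ - e j') (y (e j'))) := by
        rintro j j' hjj ρ hρ m ⟨hm1, hm2⟩
        rw [mem_desc] at hm1 hm2
        have h3 := hmono (e j) (e j') hjj (heS j').1 (by
          rw [← hm1, ← hm2, Nat.div_div_eq_div_mul, ← pow_add]
          congr 2
          have := (heS j').1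
          omega)
        rw [(heS j).2, (heS j').2] at h3
        exact lt_irrefl _ h3
      intro j j' hne ρ hρ m hm
      have hne' : (e j : ℕ) ≠ e j' := by
        intro h3
        apply hne
        apply e.injective
        exact Subtype.ext h3
      rcases lt_or_gt_of_ne hne' with h3 | h3
      · exact key j j' h3 ρ hρ m hm
      · exact key j' j h3 ρ hρ m ⟨hm.2, hm.1⟩

open Classical in
/-- The number of descendants at depth `ρ` whose image is within `n` of the image of the node. -/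
noncomputable def A (T : SimpleGraph W) (g : ℕ → ℕ → W) (t i ρ n : ℕ) : ℕ :=
  ((desc ρ i).filter (fun m => T.dist (g t i) (g (t + ρ) m) ≤ n)).card

lemma lower (hc : T.Connected) (N L0 c1 c0 : ℕ)
    (h1 : ∀ t i L, ∃ m ∈ desc L i, T.dist (g t i) (g (t + L) m) ≤ c0)
    (h2 : ∀ t i, ∃ δ x : Fin N → ℕ, (∀ j, δ j ≤ L0) ∧ (∀ j, x j ∈ desc (δ j) i) ∧
      (∀ j, T.dist (g t i) (g (t + δ j) (x j)) ≤ c1) ∧
      ∀ j j', j ≠ j' → ∀ ρ, L0 ≤ ρ → ∀ m, ¬ (m ∈ desc (ρ - δ j) (x j) ∧
        m ∈ desc (ρ - δ j') (x j'))) (k : ℕ) :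
    ∀ ρ, k * L0 ≤ ρ → ∀ t i, N ^ k ≤ A T g t i ρ (k * c1 + c0) := by
  classical
  induction k with
  | zero =>
    intro ρ _ t i
    rw [pow_zero, Nat.one_le_iff_ne_zero, A, Finset.card_ne_zero]
    obtain ⟨m, hm1, hm2⟩ := h1 t i ρ
    exact ⟨m, Finset.mem_filter.mpr ⟨hm1, by omega⟩⟩
  | succ k ih =>
    intro ρ hρ t i
    obtain ⟨δ, x, hδ, hx, hd, hdisj⟩ := h2 t i
    have hρL : L0 ≤ ρ := by nlinarith
    have hsub : (Finset.univ : Finset (Fin N)).biUnion (fun j =>
        (desc (ρ - δ j) (x j)).filter (fun m =>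
          T.dist (g (t + δ j) (x j)) (g (t + δ j + (ρ - δ j)) m) ≤ k * c1 + c0)) ⊆
        (desc ρ i).filter (fun m => T.dist (g t i) (g (t + ρ) m) ≤ (k + 1) * c1 + c0) := by
      intro m hm
      rw [Finset.mem_biUnion] at hm
      obtain ⟨j, _, hm⟩ := hm
      rw [Finset.mem_filter] at hm ⊢
      have hδj := hδ j
      have e1 : t + δ j + (ρ - δ j) = t + ρ := by omega
      rw [e1] at hm
      refine ⟨?_, ?_⟩
      · have h3 := mem_desc.mp hm.1
        have h4 := mem_desc.mp (hx j)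
        rw [mem_desc, ← h4, ← h3, Nat.div_div_eq_div_mul, ← pow_add]
        congr 2
        omega
      · have h3 := hd j
        have h4 := hc.dist_triangle (u := g t i) (v := g (t + δ j) (x j)) (w := g (t + ρ) m)
        have h5 := hm.2
        have h6 : (k + 1) * c1 = k * c1 + c1 := by ring
        omega
    have hdis : ∀ j ∈ (Finset.univ : Finset (Fin N)), ∀ j' ∈ (Finset.univ : Finset (Fin N)),
        j ≠ j' → Disjoint ((desc (ρ - δ j) (x j)).filter (fun m =>
          T.dist (g (t + δ j) (x j)) (g (t + δ j + (ρ - δ j)) m) ≤ k * c1 + c0))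
          ((desc (ρ - δ j') (x j')).filter (fun m =>
          T.dist (g (t + δ j') (x j')) (g (t + δ j' + (ρ - δ j')) m) ≤ k * c1 + c0)) := by
      intro j _ j' _ hne
      rw [Finset.disjoint_left]
      intro m hm hm'
      rw [Finset.mem_filter] at hm hm'
      exact hdisj j j' hne ρ hρL m ⟨hm.1, hm'.1⟩
    calc N ^ (k + 1) = ∑ j : Fin N, N ^ k := by
          rw [Finset.sum_const, Finset.card_univ, Fintype.card_fin, smul_eq_mul, pow_succ,
            mul_comm]
      _ ≤ ∑ j : Fin N, A T g (t + δ j) (x j) (ρ - δ j) (k * c1 + c0) := by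
          apply Finset.sum_le_sum
          intro j _
          apply ih
          have := hδ j
          have h3 : (k + 1) * L0 = k * L0 + L0 := by ring
          omega
      _ = _ := (Finset.card_biUnion hdis).symm
      _ ≤ _ := Finset.card_le_card hsub

/-- **Core theorem.** A Lipschitz map from the dyadic model of the hyperbolic plane to a tree of
bounded degree has exponentially large point preimages. -/
theorem core (hT : T.IsTree) (d : ℕ) (hd : ∀ v, (T.neighborSet v).encard ≤ d)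
    (hvert : ∀ t m, T.dist (g t (m / 2)) (g (t + 1) m) ≤ lam)
    (hhor : ∀ t i, T.dist (g t i) (g t (i + 1)) ≤ lam)
    (hfib : ∀ a : ℝ, 1 < a → ∃ C : ℝ, ∀ t i l u,
      (Nat.card {m // m ∈ desc l i ∧ g (t + l) m = u} : ℝ) ≤ C * a ^ l) : False := by
  classical
  have hc := hT.connected
  have hvert' : ∀ t m, T.dist (g t (m / 2)) (g (t + 1) m) ≤ lam + 1 := fun t m =>
    (hvert t m).trans (by omega)
  have hhor' : ∀ t i, T.dist (g t i) (g t (i + 1)) ≤ lam + 1 := fun t i =>
    (hhor t i).trans (by omega)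
  obtain ⟨C1, hC1⟩ := hfib (3 / 2) (by norm_num)
  obtain ⟨c0, hc0⟩ := claim1 hT (D := d + 1) (fun u n => ball_cover hc d hd u n) (by omega)
    hvert' hhor' C1 hC1
  set c1 := c0 + (lam + 1) with hc1
  set N := 6 * (d + 1) ^ c1 with hN
  obtain ⟨L0, hL0⟩ := claim2 hvert' hc c0 hc0 N
  have hlow := lower hc N L0 c1 c0 hc0 hL0
  set a : ℝ := 1 + 1 / (L0 + 1) with ha
  have ha1 : 1 < a := by
    rw [ha]
    have : (0 : ℝ) < 1 / (L0 + 1) := by positivity
    linarith
  have haL : a ^ L0 ≤ 3 := by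
    have h1 : a ≤ Real.exp (1 / (L0 + 1)) := by
      rw [ha, add_comm]; exact Real.add_one_le_exp _
    calc a ^ L0 ≤ (Real.exp (1 / (L0 + 1))) ^ L0 :=
          pow_le_pow_left₀ (by linarith) h1 _
      _ = Real.exp (L0 * (1 / (L0 + 1))) := by rw [← Real.exp_nat_mul]
      _ ≤ Real.exp 1 := by
          apply Real.exp_le_exp.mpr
          rw [mul_one_div, div_le_one (by positivity)]
          linarith
      _ ≤ 3 := by linarith [Real.exp_one_lt_d9]
  obtain ⟨C, hC⟩ := hfib a ha1
  have hC0 : 0 ≤ C := by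
    have := hC 0 0 0 (g 0 0)
    simp only [pow_zero, mul_one] at this
    exact le_trans (by positivity) this
  -- upper bound
  have hup : ∀ t i ρ n, (A T g t i ρ n : ℝ) ≤ ((d : ℝ) + 1) ^ n * (C * a ^ ρ) := by
    intro t i ρ n
    obtain ⟨s, hs1, hs2⟩ := ball_cover hc d hd (g t i) n
    have h3 : (desc ρ i).filter (fun m => T.dist (g t i) (g (t + ρ) m) ≤ n) ⊆
        s.biUnion (fun w => (desc ρ i).filter (fun m => g (t + ρ) m = w)) := by
      intro m hm
      rw [Finset.mem_filter] at hm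
      rw [Finset.mem_biUnion]
      exact ⟨_, hs2 _ hm.2, Finset.mem_filter.mpr ⟨hm.1, rfl⟩⟩
    have h4 : ∀ w, (((desc ρ i).filter (fun m => g (t + ρ) m = w)).card : ℝ) ≤ C * a ^ ρ := by
      intro w
      have := hC t i ρ w
      rwa [show Nat.card {m // m ∈ desc ρ i ∧ g (t + ρ) m = w}
        = ((desc ρ i).filter (fun m => g (t + ρ) m = w)).card from by
          rw [← Nat.card_eq_finsetCard]
          apply Nat.card_congr
          exact Equiv.subtypeEquivRight (fun m => by simp)] at this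
    calc (A T g t i ρ n : ℝ)
        ≤ ((∑ w ∈ s, ((desc ρ i).filter (fun m => g (t + ρ) m = w)).card : ℕ) : ℝ) := by
          rw [A]
          exact_mod_cast (Finset.card_le_card h3).trans Finset.card_biUnion_le
      _ = ∑ w ∈ s, (((desc ρ i).filter (fun m => g (t + ρ) m = w)).card : ℝ) := by
          push_cast; rfl
      _ ≤ ∑ w ∈ s, C * a ^ ρ := Finset.sum_le_sum (fun w _ => h4 w)
      _ = s.card * (C * a ^ ρ) := by rw [Finset.sum_const, nsmul_eq_mul]
      _ ≤ ((d : ℝ) + 1) ^ n * (C * a ^ ρ) := by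
          apply mul_le_mul_of_nonneg_right _ (by positivity)
          exact_mod_cast hs1
  -- comparison
  have hcomp : ∀ k : ℕ, (2 : ℝ) ^ k ≤ ((d : ℝ) + 1) ^ c0 * C := by
    intro k
    have h1 : (N : ℝ) ^ k ≤ ((d : ℝ) + 1) ^ (k * c1 + c0) * (C * a ^ (k * L0)) := by
      calc (N : ℝ) ^ k ≤ (A T g 0 0 (k * L0) (k * c1 + c0) : ℝ) := by
            exact_mod_cast hlow k (k * L0) le_rfl 0 0
        _ ≤ _ := hup _ _ _ _
    have h2 : ((d : ℝ) + 1) ^ (k * c1 + c0) * (C * a ^ (k * L0))
        = (((d : ℝ) + 1) ^ c1 * a ^ L0) ^ k * (((d : ℝ) + 1) ^ c0 * C) := by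
      rw [pow_add, pow_mul' a k L0, pow_mul' ((d : ℝ) + 1) k c1, mul_pow]
      ring
    have h3 : (((d : ℝ) + 1) ^ c1 * a ^ L0) ^ k ≤ (((d : ℝ) + 1) ^ c1 * 3) ^ k := by
      apply pow_le_pow_left₀ (by positivity)
      exact mul_le_mul_of_nonneg_left haL (by positivity)
    have h4 : (N : ℝ) ^ k = (((d : ℝ) + 1) ^ c1 * 3) ^ k * 2 ^ k := by
      rw [← mul_pow, hN]
      push_cast
      ring
    rw [h2, h4] at h1
    have h5 : (((d : ℝ) + 1) ^ c1 * a ^ L0) ^ k * (((d : ℝ) + 1) ^ c0 * C)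
        ≤ (((d : ℝ) + 1) ^ c1 * 3) ^ k * (((d : ℝ) + 1) ^ c0 * C) :=
      mul_le_mul_of_nonneg_right h3 (by positivity)
    have h6 := h1.trans h5
    exact le_of_mul_le_mul_left h6 (by positivity)
  obtain ⟨k, hk⟩ := pow_unbounded_of_one_lt (((d : ℝ) + 1) ^ c0 * C) (one_lt_two)
  exact absurd (hcomp k) (not_le.mpr hk)

end Pool.Agent.H954R3.Core
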