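import Pool.Agent.H954R3.DUTame

set_option autoImplicit false

/-!
# Covers of a space that is partitioned into leaves of bounded asymptotic dimension
-/

namespace Pool.Agent.H954R3.DU

universe u

open Finset

variable {X : Type u} {d : X → X → ℝ}

/-- the scales and the bounds: `DD a` is the bound for the components of the union of the parts of
colour less than `a`, `rr a` is the scale used for colour `a` -/
noncomputable def DD (Bs : ℝ → ℝ) (A R : ℝ) : ℕ → ℝ
  | 0 => 0
  | a + 1 => (Bs (DD Bs A R a + 2 * R + 2 * A) + 2 * A) + 2 * DD Bs A R a + 2 * R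

/-- The core lemma. -/
theorem core (hd : PM d) {Q : Type u} (leaf : X → Q) (col : Q → ℕ) (L n : ℕ) (R : ℝ) (hR : 0 ≤ R)
    (hL : ∀ q, col q < L) (hnL : n + 1 ≤ L)
    (hcol : ∀ x y x' y', leaf y = leaf y' → d x y ≤ (2 * n + 1) * R → d x' y' ≤ (2 * n + 1) * R →
      col (leaf x) = col (leaf x') → leaf x = leaf x')
    (hkol : ∀ s : ℝ, ∃ B : ℝ, ∃ V : ℕ → Set X,
      (∀ i < L, ∀ q, Tame d {x | x ∈ V i ∧ leaf x = q} s B) ∧
      ∀ x, ∀ F : Finset ℕ,
        (∀ i ∈ F, i < L ∧ ∃ z, leaf z = leaf x ∧ d x z ≤ 2 * (n * R) ∧ z ∉ V i) → F.card ≤ n) :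
    ∃ B : ℝ, ∃ S₁ : Set X, ∃ S : Fin n × Fin n × Fin (n + 1) → Set X,
      (∀ q, Tame d {x | x ∈ S₁ ∧ leaf x = q} R B) ∧ (∀ j, Tame d (S j) R B) ∧
      ∀ x, x ∈ S₁ ∨ ∃ j, x ∈ S j := by
  classical
  set A : ℝ := (2 * n + 1) * R with hA
  set A' : ℝ := n * R with hA'
  have hn0 : (0 : ℝ) ≤ n := Nat.cast_nonneg n
  have hA'0 : 0 ≤ A' := mul_nonneg hn0 hR
  have hA0 : 0 ≤ A := mul_nonneg (by positivity) hR
  have h2A' : 2 * A' ≤ A := by rw [hA, hA']; nlinarith
  have hRA : R ≤ A := by rw [hA]; nlinarith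
  choose B₀ Vf hV hcount using hkol
  set Bs : ℝ → ℝ := fun s => max (B₀ s) 0 with hBs
  have hBs0 : ∀ s, 0 ≤ Bs s := fun s => le_max_right _ _
  set D : ℕ → ℝ := DD Bs A R with hD
  have hD0 : D 0 = 0 := rfl
  set r : ℕ → ℝ := fun a => D a + 2 * R + 2 * A with hr
  have hDs : ∀ a, D (a + 1) = (Bs (r a) + 2 * A) + 2 * D a + 2 * R := fun a => rfl
  set raw : ℕ → Set X := fun i => {x | x ∈ Vf (r (col (leaf x))) i} with hraw
  set W : ℕ → Set X := fun i => {x | x ∈ raw i ∨
    ∃ y ∈ raw i, col (leaf y) < col (leaf x) ∧ d x y ≤ A} with hW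
  -- the leaves meet `W i` in tame sets
  have Wtame : ∀ i < L, ∀ q, Tame d {x | x ∈ W i ∧ leaf x = q} R (D L) := by
    intro i hi q
    let T : ℕ → Set X := fun a => {x | leaf x = q ∧ ∃ y ∈ raw i, col (leaf y) = a ∧ d x y ≤ A}
    have hT : ∀ a, Tame d (T a) (D a + 2 * R) (Bs (r a) + 2 * A) := by
      intro a
      by_cases hne : ∃ x₀, x₀ ∈ T a
      · obtain ⟨x₀, hx₀, y₀, hy₀, hc₀, hd₀⟩ := hne
        have h1 := ((hV (r a) i hi (leaf y₀)).nbhd hd A)
        apply h1.mono _ _ _
        · rintro x ⟨hx, y, hy, hc, hdx⟩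
          refine ⟨y, ⟨?_, ?_⟩, hdx⟩
          · have : y ∈ Vf (r (col (leaf y))) i := hy
            rw [hc] at this
            exact this
          · apply hcol y x y₀ x₀ (hx.trans hx₀.symm)
            · rw [hd.symm]; exact hdx
            · rw [hd.symm]; exact hd₀
            · rw [hc, hc₀]
        · simp only [hr]; linarith
        · have : B₀ (r a) ≤ Bs (r a) := le_max_left _ _
          linarith
      · apply Tame.empty.mono _ le_rfl le_rfl
        intro x hx
        exact absurd ⟨x, hx⟩ hne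
    have h2 := Tame.hier hd hR T D (fun a => Bs (r a) + 2 * A) hD0
      (fun a => by have := hBs0 (r a); positivity) hDs hT L
    apply h2.mono _ le_rfl le_rfl
    rintro x ⟨hx, hxq⟩
    rcases hx with hx | ⟨y, hy, hc, hdx⟩
    · exact ⟨col (leaf x), hL _, hxq, x, hx, rfl, by rw [hd.self]; exact hA0⟩
    · exact ⟨col (leaf y), hL _, hxq, y, hy, rfl, hdx⟩
  -- general position
  have GP : ∀ x, ∀ F : Finset ℕ, (∀ i ∈ F, i < L ∧ ∃ y, d x y ≤ A' ∧ y ∉ W i) → F.card ≤ n := by
    intro x F hF
    -- the point of smallest colour near `x`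
    have hex : ∃ c : ℕ, ∃ y, d x y ≤ A' ∧ col (leaf y) = c :=
      ⟨_, x, by rw [hd.self]; exact hA'0, rfl⟩
    obtain ⟨y₀, hy₀, hc₀⟩ := Nat.find_spec hex
    have hmin : ∀ y, d x y ≤ A' → col (leaf y₀) ≤ col (leaf y) := by
      intro y hy
      rw [hc₀]
      exact Nat.find_min' hex ⟨y, hy, rfl⟩
    apply hcount (r (col (leaf y₀))) y₀ F
    intro i hi
    obtain ⟨h1, y, hy, hyW⟩ := hF i hi
    refine ⟨h1, ?_⟩
    by_contra hcon
    push Not at hcon
    have hy₀y : d y₀ y ≤ 2 * A' := by
      have := hd.tri y₀ x y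
      rw [hd.symm y₀ x] at this
      linarith
    apply hyW
    by_cases hc : col (leaf y) = col (leaf y₀)
    · have hl : leaf y = leaf y₀ := by
        apply hcol y x y₀ x rfl _ _ hc
        · rw [hd.symm]; linarith
        · rw [hd.symm]; linarith
      left
      show y ∈ Vf (r (col (leaf y))) i
      rw [hc]
      exact hcon y hl hy₀y
    · right
      refine ⟨y₀, ?_, ?_, ?_⟩
      · show y₀ ∈ Vf (r (col (leaf y₀))) i
        exact hcon y₀ rfl (by rw [hd.self]; linarith)
      · exact lt_of_le_of_ne (hmin y hy) (Ne.symm hc)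
      · rw [hd.symm]; linarith
  -- levels
  let AA : ℕ → X → Finset ℕ := fun l x =>
    (range L).filter (fun a => ∃ y, d x y ≤ l * R ∧ col (leaf y) = a ∧ y ∉ W a)
  have hAA : ∀ l x a, a ∈ AA l x ↔ a < L ∧ ∃ y, d x y ≤ l * R ∧ col (leaf y) = a ∧ y ∉ W a := by
    intro l x a
    simp only [AA, mem_filter, mem_range]
  have hAAcard : ∀ l ≤ n, ∀ x, (AA l x).card ≤ n := by
    intro l hl x
    apply GP x
    intro a ha
    obtain ⟨h1, y, h2, h3, h4⟩ := (hAA l x a).mp ha
    refine ⟨h1, y, h2.trans ?_, h4⟩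
    rw [hA']
    have : (l : ℝ) ≤ n := by exact_mod_cast hl
    exact mul_le_mul_of_nonneg_right this hR
  have hAAmono : ∀ l x y, d x y ≤ R → AA l x ⊆ AA (l + 1) y := by
    intro l x y hxy a ha
    obtain ⟨h1, z, h2, h3, h4⟩ := (hAA l x a).mp ha
    refine (hAA _ _ _).mpr ⟨h1, z, ?_, h3, h4⟩
    have := hd.tri y x z
    rw [hd.symm y x] at this
    push_cast
    linarith
  have hself : ∀ x, x ∉ W (col (leaf x)) → ∀ l, col (leaf x) ∈ AA l x := by
    intro x hx l
    refine (hAA _ _ _).mpr ⟨hL _, x, ?_, rfl, hx⟩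
    rw [hd.self]; positivity
  -- the families
  let S₁ : Set X := {x | x ∈ W (col (leaf x))}
  let S : Fin n × Fin n × Fin (n + 1) → Set X := fun j =>
    {x | x ∉ W (col (leaf x)) ∧ AA j.1 x = AA (j.1 + 1) x ∧
      ((AA j.1 x).filter (fun a => a < col (leaf x))).card = (j.2.1 : ℕ) ∧ x ∈ W j.2.2}
  refine ⟨D L, S₁, S, ?_, ?_, ?_⟩
  · intro q
    apply (Wtame (col q) (hL q) q).mono _ le_rfl le_rfl
    rintro x ⟨hx, hxq⟩
    refine ⟨?_, hxq⟩
    have : x ∈ W (col (leaf x)) := hx
    rw [hxq] at this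
    exact this
  · rintro ⟨l, p, i⟩
    apply Tame.of_leaf leaf
    · intro q
      apply (Wtame i (by have := i.2; omega) q).mono _ le_rfl le_rfl
      rintro x ⟨⟨-, -, -, hx⟩, hxq⟩
      exact ⟨hx, hxq⟩
    · rintro x ⟨hx1, hx2, hx3, hx4⟩ y ⟨hy1, hy2, hy3, hy4⟩ hxy
      simp only at hx2 hx3 hy2 hy3
      have e1 : AA l x = AA l y := by
        apply Subset.antisymm
        · rw [hy2]; exact hAAmono _ _ _ hxy
        · rw [hx2]; exact hAAmono _ _ _ (by rw [hd.symm]; exact hxy)
      -- equal colours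
      have key : ∀ (F : Finset ℕ) (a b : ℕ), a ∈ F → a < b →
          (F.filter (fun c => c < a)).card < (F.filter (fun c => c < b)).card := by
        intro F a b ha hab
        apply card_lt_card
        rw [ssubset_iff_of_subset]
        · exact ⟨a, mem_filter.mpr ⟨ha, hab⟩, fun h => lt_irrefl _ (mem_filter.mp h).2⟩
        · intro c hc
          rw [mem_filter] at hc ⊢
          exact ⟨hc.1, hc.2.trans hab⟩
      have e2 : col (leaf x) = col (leaf y) := by
        rcases lt_trichotomy (col (leaf x)) (col (leaf y)) with h | h | h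
        · have := key (AA l x) _ _ (hself x hx1 l) h
          rw [hx3, e1, hy3] at this
          exact absurd this (lt_irrefl _)
        · exact h
        · have := key (AA l y) _ _ (hself y hy1 l) h
          rw [hy3, ← e1, hx3] at this
          exact absurd this (lt_irrefl _)
      exact hcol x y y y rfl (hxy.trans hRA) (by rw [hd.self]; exact hA0) e2
  · intro x
    by_cases hx : x ∈ W (col (leaf x))
    · exact Or.inl hx
    right
    -- the level
    have hlev : ∃ l < n, AA l x = AA (l + 1) x := by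
      by_contra hcon
      push Not at hcon
      have hgrow : ∀ l ≤ n, l + 1 ≤ (AA l x).card := by
        intro l hl
        induction l with
        | zero =>
          have := card_pos.mpr ⟨_, hself x hx 0⟩
          omega
        | succ l ih =>
          have h1 := ih (by omega)
          have h2 : AA l x ⊂ AA (l + 1) x := by
            refine lt_of_le_of_ne (hAAmono l x x (by rw [hd.self]; exact hR)) (hcon l (by omega))
          have h3 := card_lt_card h2
          omega
      have h1 := hgrow n le_rfl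
      have h2 := hAAcard n le_rfl x
      omega
    obtain ⟨l, hl, hle⟩ := hlev
    have hp : ((AA l x).filter (fun a => a < col (leaf x))).card < n := by
      have h1 : (AA l x).filter (fun a => a < col (leaf x)) ⊂ AA l x := by
        rw [ssubset_iff_of_subset (filter_subset _ _)]
        exact ⟨_, hself x hx l, fun h => lt_irrefl _ (mem_filter.mp h).2⟩
      have h2 := card_lt_card h1
      have h3 := hAAcard l hl.le x
      omega
    have hi : ∃ i < n + 1, x ∈ W i := by
      by_contra hcon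
      push Not at hcon
      have h1 := GP x (range (n + 1)) (by
        intro i hi
        rw [mem_range] at hi
        exact ⟨by omega, x, by rw [hd.self]; exact hA'0, hcon i hi⟩)
      rw [card_range] at h1
      omega
    obtain ⟨i, hi1, hi2⟩ := hi
    exact ⟨(⟨l, hl⟩, ⟨_, hp⟩, ⟨i, hi1⟩), hx, hle, rfl, hi2⟩

end Pool.Agent.H954R3.DU
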