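import Pool.Agent.H954R3.DUCore

set_option autoImplicit false

/-!
# The group part: commensurated subgroups of finite asymptotic dimension
-/

namespace Pool.Agent.H954R3.DU

universe u

open Finset

/-! ### Colourings -/

/-- A symmetric relation on a countable set in which every element has at most `N` neighbours
has a colouring with `N + 1` colours. -/
lemma exists_colouring {Q : Type u} [Countable Q] (r : Q → Q → Prop) (N : ℕ)
    (hr : ∀ q, ∃ F : Finset Q, F.card ≤ N ∧ ∀ q', r q q' → q' ∈ F)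
    (hsymm : ∀ q q', r q q' → r q' q) :
    ∃ c : Q → ℕ, (∀ q, c q ≤ N) ∧ ∀ q q', r q q' → c q = c q' → q = q' := by
  classical
  obtain ⟨e, he⟩ := exists_injective_nat Q
  let step : (q : Q) → ((q' : Q) → e q' < e q → ℕ) → ℕ := fun q ih =>
    sInf {m | ∀ q' (h : e q' < e q), r q q' → ih q' h ≠ m}
  let c : Q → ℕ := WellFounded.fix (InvImage.wf e wellFounded_lt) step
  have hc : ∀ q, c q = sInf {m | ∀ q', e q' < e q → r q q' → c q' ≠ m} := by
    intro q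
    exact WellFounded.fix_eq (InvImage.wf e wellFounded_lt) step q
  have hex : ∀ q, ∃ m ≤ N, ∀ q', e q' < e q → r q q' → c q' ≠ m := by
    intro q
    obtain ⟨F, hF, hF'⟩ := hr q
    have h1 : ((range (N + 1)) \ (F.image c)).Nonempty := by
      rw [← card_pos]
      have h2 := le_card_sdiff (F.image c) (range (N + 1))
      have h3 : (F.image c).card ≤ F.card := card_image_le
      rw [card_range] at h2
      omega
    obtain ⟨m, hm⟩ := h1
    rw [mem_sdiff, mem_range] at hm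
    refine ⟨m, by omega, ?_⟩
    intro q' _ hq' hcm
    exact hm.2 (mem_image.mpr ⟨q', hF' q' hq', hcm⟩)
  refine ⟨c, ?_, ?_⟩
  · intro q
    obtain ⟨m, hm, hm'⟩ := hex q
    rw [hc]
    exact (Nat.sInf_le (show m ∈ {m | ∀ q', e q' < e q → r q q' → c q' ≠ m} from hm')).trans hm
  · have key : ∀ q q', e q' < e q → r q q' → c q' ≠ c q := by
      intro q q' h h'
      obtain ⟨m, hm, hm'⟩ := hex q
      have h1 := Nat.sInf_mem (s := {m | ∀ q', e q' < e q → r q q' → c q' ≠ m}) ⟨m, hm'⟩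
      rw [← hc] at h1
      exact h1 q' h h'
    intro q q' hqq hcc
    rcases lt_trichotomy (e q) (e q') with h | h | h
    · exact absurd hcc (key q' q h (hsymm _ _ hqq))
    · exact he h
    · exact absurd hcc.symm (key q q' h hqq)

/-! ### Definitions -/

section Defs

variable {X : Type u}

/-- The family `𝒰` is uniformly bounded. -/
def UBounded (d : X → X → ℝ) (𝒰 : Set (Set X)) : Prop :=
  ∃ B : ℝ, ∀ U ∈ 𝒰, ∀ x ∈ U, ∀ y ∈ U, d x y ≤ B

/-- The family `𝒰` is `r`-disjoint: `d(U, V) > r` for distinct members `U`, `V`, where `d(U, V)` is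
the infimum of the distances `d(x, y)`, `x ∈ U`, `y ∈ V`. -/
def RDisjoint (d : X → X → ℝ) (r : ℝ) (𝒰 : Set (Set X)) : Prop :=
  ∀ U ∈ 𝒰, ∀ V ∈ 𝒰, U ≠ V → ∃ δ : ℝ, r < δ ∧ ∀ x ∈ U, ∀ y ∈ V, δ ≤ d x y

/-- Asymptotic property C. -/
def APC (d : X → X → ℝ) : Prop :=
  ∀ R : ℕ → ℝ, (∀ i, 0 < R i) → Monotone R → ∃ n : ℕ, ∃ 𝒰 : ℕ → Set (Set X),
    (∀ i < n, UBounded d (𝒰 i) ∧ RDisjoint d (R i) (𝒰 i)) ∧ ∀ x, ∃ i < n, ∃ U ∈ 𝒰 i, x ∈ U

/-- Asymptotic dimension at most `n`. -/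
def AsdimLE (d : X → X → ℝ) (n : ℕ) : Prop :=
  ∀ r : ℝ, 0 < r → ∃ 𝒰 : ℕ → Set (Set X),
    (∀ i ≤ n, UBounded d (𝒰 i) ∧ RDisjoint d r (𝒰 i)) ∧ ∀ x, ∃ i ≤ n, ∃ U ∈ 𝒰 i, x ∈ U

end Defs

/-- A proper left-invariant metric on a group: all balls are finite. -/
structure ProperLeftInvariantMetric {G : Type u} [Group G] (d : G → G → ℝ) : Prop where
  eq_zero : ∀ x y, d x y = 0 ↔ x = y
  symm : ∀ x y, d x y = d y x
  tri : ∀ x y z, d x z ≤ d x y + d y z
  left : ∀ g x y, d (g * x) (g * y) = d x y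
  proper : ∀ r : ℝ, {g : G | d 1 g ≤ r}.Finite

/-- `H` is commensurated in `G`: for every `g`, the intersection `H ∩ g H g⁻¹` has finite index
in `H`. -/
def Commensurated {G : Type u} [Group G] (H : Subgroup G) : Prop :=
  ∀ g : G, (H.map (MulAut.conj g).toMonoidHom).relIndex H ≠ 0

lemma commensurated_of_normal {G : Type u} [Group G] (H : Subgroup G) [hn : H.Normal] :
    Commensurated H := by
  intro g
  have h : H ≤ H.map (MulAut.conj g).toMonoidHom := by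
    intro x hx
    refine ⟨g⁻¹ * x * g, ?_, ?_⟩
    · have := hn.conj_mem x hx g⁻¹
      simpa using this
    · simp [mul_assoc]
  rw [Subgroup.relIndex_eq_one.mpr h]
  exact one_ne_zero

lemma Kol.of_asdim {X : Type u} {d : X → X → ℝ} {n : ℕ} (h : AsdimLE d n) : Kol d n (n + 1) := by
  classical
  intro s
  obtain ⟨𝒰, h1, h2⟩ := h (max s 1) (lt_of_lt_of_le one_pos (le_max_right _ _))
  have h1' : ∀ i, ∃ B : ℝ, i ≤ n → ∀ U ∈ 𝒰 i, ∀ x ∈ U, ∀ y ∈ U, d x y ≤ B := by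
    intro i
    by_cases hi : i ≤ n
    · obtain ⟨B, hB⟩ := (h1 i hi).1
      exact ⟨B, fun _ => hB⟩
    · exact ⟨0, fun h => absurd h hi⟩
  choose B hB using h1'
  refine ⟨∑ i ∈ range (n + 1), |B i|, fun i => ⋃₀ 𝒰 i, ?_, ?_⟩
  · intro i hi
    have hi' : i ≤ n := by omega
    have hBi : B i ≤ ∑ i ∈ range (n + 1), |B i| :=
      (le_abs_self _).trans (single_le_sum (f := fun i => |B i|) (fun _ _ => abs_nonneg _)
        (mem_range.mpr hi))
    refine ⟨Set X, fun x => if h : ∃ U ∈ 𝒰 i, x ∈ U then h.choose else ∅, ?_, ?_⟩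
    · intro x hx y hy hxy
      have hx' : ∃ U ∈ 𝒰 i, x ∈ U := hx
      have hy' : ∃ U ∈ 𝒰 i, y ∈ U := hy
      simp only [dif_pos hx', dif_pos hy']
      obtain ⟨a1, a2⟩ := hx'.choose_spec
      obtain ⟨b1, b2⟩ := hy'.choose_spec
      by_contra hne
      obtain ⟨δ, hδ, hδ'⟩ := (h1 i hi').2 _ a1 _ b1 hne
      have := hδ' x a2 y b2
      have := le_max_left s 1
      linarith
    · intro x hx y hy hxy
      have hx' : ∃ U ∈ 𝒰 i, x ∈ U := hx
      have hy' : ∃ U ∈ 𝒰 i, y ∈ U := hy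
      simp only [dif_pos hx', dif_pos hy'] at hxy
      obtain ⟨a1, a2⟩ := hx'.choose_spec
      obtain ⟨b1, b2⟩ := hy'.choose_spec
      rw [← hxy] at b2
      exact (hB i hi' _ a1 x a2 y b2).trans hBi
  · intro x F hF
    obtain ⟨i, hi, U, hU, hxU⟩ := h2 x
    have h3 : F ⊆ (range (n + 1)).erase i := by
      intro j hj
      obtain ⟨h4, h5⟩ := hF j hj
      rw [mem_erase, mem_range]
      refine ⟨?_, h4⟩
      rintro rfl
      exact h5 ⟨U, hU, hxU⟩
    have h4 := card_le_card h3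
    rw [card_erase_of_mem (mem_range.mpr (by omega)), card_range] at h4
    omega

section Group

variable {G : Type u} [Group G] {d : G → G → ℝ}

lemma ProperLeftInvariantMetric.pm (h : ProperLeftInvariantMetric d) : PM d :=
  ⟨fun x => (h.eq_zero x x).mpr rfl, h.symm, h.tri⟩

lemma ProperLeftInvariantMetric.one_inv_mul (h : ProperLeftInvariantMetric d) (x y : G) :
    d 1 (x⁻¹ * y) = d x y := by
  rw [← h.left x 1 (x⁻¹ * y)]
  simp

lemma finite_range_mul {H : Subgroup G} (hc : Commensurated H) (s : G) :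
    (Set.range (fun h : H => (QuotientGroup.mk ((h : G) * s) : G ⧸ H))).Finite := by
  set K : Subgroup H := (H.map (MulAut.conj s).toMonoidHom).subgroupOf H with hK
  have hfin : Finite (H ⧸ K) := Nat.finite_of_card_ne_zero (hc s)
  refine (Set.finite_range (fun q : H ⧸ K => (QuotientGroup.mk ((q.out : G) * s) : G ⧸ H))).subset ?_
  rintro _ ⟨h, rfl⟩
  refine ⟨QuotientGroup.mk h, ?_⟩
  obtain ⟨k, hk⟩ := QuotientGroup.mk_out_eq_mul K h
  have h1 : ((k : H) : G) ∈ H.map (MulAut.conj s).toMonoidHom := k.2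
  obtain ⟨t, ht, hts⟩ := h1
  have h2 : ((k : H) : G) = s * t * s⁻¹ := by
    rw [← hts]; simp
  show (QuotientGroup.mk (((QuotientGroup.mk h : H ⧸ K).out : G) * s) : G ⧸ H) =
    QuotientGroup.mk ((h : G) * s)
  rw [hk, QuotientGroup.eq]
  have h3 : (((h * (k : H) : H) : G) * s)⁻¹ * ((h : G) * s) = t⁻¹ := by
    rw [Subgroup.coe_mul, h2]
    group
  rw [h3]
  exact H.inv_mem ht

/-- the cosets near a given coset -/
def Near (d : G → G → ℝ) (H : Subgroup G) (A : ℝ) (q q' : G ⧸ H) : Prop :=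
  ∃ x y : G, (QuotientGroup.mk x : G ⧸ H) = q ∧ (QuotientGroup.mk y : G ⧸ H) = q' ∧ d x y ≤ A

lemma near_finite (hd : ProperLeftInvariantMetric d) {H : Subgroup G} (hc : Commensurated H)
    (A : ℝ) : ∃ N : ℕ, ∀ q : G ⧸ H, ∃ F : Finset (G ⧸ H), F.card ≤ N ∧
      ∀ q', Near d H A q q' → q' ∈ F := by
  classical
  have hfin : (⋃ s ∈ {g : G | d 1 g ≤ A},
      Set.range (fun h : H => (QuotientGroup.mk ((h : G) * s) : G ⧸ H))).Finite :=
    (hd.proper A).biUnion (fun s _ => finite_range_mul hc s)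
  refine ⟨hfin.toFinset.card, ?_⟩
  intro q
  obtain ⟨g, rfl⟩ := QuotientGroup.mk_surjective q
  refine ⟨hfin.toFinset.image (fun q => g • q), card_image_le, ?_⟩
  rintro q' ⟨x, y, hx, rfl, hxy⟩
  rw [mem_image]
  have h1 : g⁻¹ * x ∈ H := QuotientGroup.eq.mp hx.symm
  refine ⟨QuotientGroup.mk ((g⁻¹ * x) * (x⁻¹ * y)), ?_, ?_⟩
  · rw [Set.Finite.mem_toFinset, Set.mem_iUnion₂]
    refine ⟨x⁻¹ * y, ?_, ⟨⟨_, h1⟩, rfl⟩⟩
    show d 1 (x⁻¹ * y) ≤ A
    rw [hd.one_inv_mul]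
    exact hxy
  · show (QuotientGroup.mk (g * ((g⁻¹ * x) * (x⁻¹ * y))) : G ⧸ H) = QuotientGroup.mk y
    congr 1
    group

/-- The cover of a group given by a commensurated subgroup of finite asymptotic dimension. -/
theorem group_cover (hd : ProperLeftInvariantMetric d) {H : Subgroup G} (hc : Commensurated H)
    {n : ℕ} (hn : AsdimLE (fun x y : H => d x y) n) (R : ℝ) (hR : 0 ≤ R) :
    ∃ B : ℝ, ∃ S₁ : Set G, ∃ S : Fin n × Fin n × Fin (n + 1) → Set G,
      (∀ q : G ⧸ H, Tame d {x | x ∈ S₁ ∧ (QuotientGroup.mk x : G ⧸ H) = q} R B) ∧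
      (∀ j, Tame d (S j) R B) ∧ ∀ x, x ∈ S₁ ∨ ∃ j, x ∈ S j := by
  classical
  have hpm := hd.pm
  have hG : Countable G := by
    have h1 : (Set.univ : Set G) = ⋃ k : ℕ, {g : G | d 1 g ≤ k} := by
      apply Set.eq_of_subset_of_subset
      · intro g _
        obtain ⟨k, hk⟩ := exists_nat_ge (d 1 g)
        exact Set.mem_iUnion.mpr ⟨k, hk⟩
      · exact Set.subset_univ _
    rw [← Set.countable_univ_iff, h1]
    exact Set.countable_iUnion (fun k => (hd.proper k).countable)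
  have hQ : Countable (G ⧸ H) := Quotient.countable
  obtain ⟨N, hN⟩ := near_finite hd hc ((2 * n + 1) * R)
  -- the conflict relation
  let C : G ⧸ H → G ⧸ H → Prop := fun q q' =>
    ∃ p, Near d H ((2 * n + 1) * R) q p ∧ Near d H ((2 * n + 1) * R) q' p
  have hnear_symm : ∀ q q', Near d H ((2 * n + 1) * R) q q' → Near d H ((2 * n + 1) * R) q' q := by
    rintro q q' ⟨x, y, hx, hy, hxy⟩
    exact ⟨y, x, hy, hx, by rw [hd.symm]; exact hxy⟩
  choose Fn hFn1 hFn2 using hN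
  obtain ⟨c, hc1, hc2⟩ := exists_colouring C (N * N)
    (by
      intro q
      refine ⟨(Fn q).biUnion Fn, ?_, ?_⟩
      · calc ((Fn q).biUnion Fn).card ≤ ∑ p ∈ Fn q, (Fn p).card := card_biUnion_le
          _ ≤ ∑ _p ∈ Fn q, N := sum_le_sum (fun p _ => hFn1 p)
          _ = (Fn q).card * N := by rw [sum_const, smul_eq_mul]
          _ ≤ N * N := Nat.mul_le_mul_right _ (hFn1 q)
      · rintro q' ⟨p, h1, h2⟩
        exact mem_biUnion.mpr ⟨p, hFn2 _ _ h1, hFn2 _ _ (hnear_symm _ _ h2)⟩)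
    (by rintro q q' ⟨p, h1, h2⟩; exact ⟨p, h2, h1⟩)
  set L : ℕ := max (N * N + 1) (n + 1) with hL
  -- the Kolmogorov property of `H`
  have hpmH : PM (fun x y : H => d x y) := ⟨fun x => hpm.self x, fun x y => hpm.symm x y,
    fun x y z => hpm.tri x y z⟩
  have hkolH := ((Kol.of_asdim hn).all hpmH L (le_max_right _ _)).robust hpmH (2 * (n * R))
  -- coordinates in the cosets
  have hτ : ∀ x : G, ((QuotientGroup.mk x : G ⧸ H).out)⁻¹ * x ∈ H := by
    intro x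
    exact QuotientGroup.eq.mp (Quotient.out_eq' (QuotientGroup.mk x : G ⧸ H))
  let τ : G → H := fun x => ⟨((QuotientGroup.mk x : G ⧸ H).out)⁻¹ * x, hτ x⟩
  have hτd : ∀ x y : G, (QuotientGroup.mk x : G ⧸ H) = QuotientGroup.mk y →
      d (τ x) (τ y) = d x y := by
    intro x y hxy
    show d (((QuotientGroup.mk x : G ⧸ H).out)⁻¹ * x) (((QuotientGroup.mk y : G ⧸ H).out)⁻¹ * y) = _
    rw [hxy, hd.left]
  apply core hpm (Q := G ⧸ H) (fun x => (QuotientGroup.mk x : G ⧸ H)) c L n R hR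
  · intro q
    have := hc1 q
    have := le_max_left (N * N + 1) (n + 1)
    omega
  · exact le_max_right _ _
  · intro x y x' y' hyy hxy hxy' hcc
    apply hc2 _ _ _ hcc
    exact ⟨QuotientGroup.mk y, ⟨x, y, rfl, rfl, hxy⟩, ⟨x', y', rfl, hyy.symm, hxy'⟩⟩
  · intro s
    obtain ⟨B, V, hV, hcount⟩ := hkolH s
    refine ⟨B, fun i => {x | τ x ∈ V i}, ?_, ?_⟩
    · intro i hi q
      obtain ⟨ι, π, h1, h2⟩ := hV i hi
      refine ⟨ι, fun x => π (τ x), ?_, ?_⟩
      · rintro x ⟨hx, hxq⟩ y ⟨hy, hyq⟩ hxy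
        apply h1 _ hx _ hy
        show d (τ x) (τ y) ≤ s
        rw [hτd x y (hxq.trans hyq.symm)]
        exact hxy
      · rintro x ⟨hx, hxq⟩ y ⟨hy, hyq⟩ hxy
        have := h2 _ hx _ hy hxy
        have e : d (τ x) (τ y) ≤ B := this
        rwa [hτd x y (hxq.trans hyq.symm)] at e
    · intro x F hF
      apply hcount (τ x) F
      intro i hi
      obtain ⟨h1, z, h2, h3, h4⟩ := hF i hi
      refine ⟨h1, τ z, ?_, h4⟩
      show d (τ x) (τ z) ≤ _
      rw [hτd x z h2.symm]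
      exact h3

/-- from tame sets to families -/
lemma Tame.family {X : Type u} {d : X → X → ℝ} {S : Set X} {s B : ℝ} (h : Tame d S s B) :
    ∃ 𝒰 : Set (Set X), UBounded d 𝒰 ∧ (∀ r < s, RDisjoint d r 𝒰) ∧ ∀ x ∈ S, ∃ U ∈ 𝒰, x ∈ U := by
  obtain ⟨ι, π, h1, h2⟩ := h
  refine ⟨{U | ∃ i : ι, U = {x | x ∈ S ∧ π x = i}}, ⟨B, ?_⟩, ?_, ?_⟩
  · rintro U ⟨i, rfl⟩ x ⟨hx, hxi⟩ y ⟨hy, hyi⟩
    exact h2 x hx y hy (hxi.trans hyi.symm)
  · rintro r hr U ⟨i, rfl⟩ V ⟨j, rfl⟩ hne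
    refine ⟨s, hr, ?_⟩
    rintro x ⟨hx, hxi⟩ y ⟨hy, hyj⟩
    by_contra hcon
    have h3 := h1 x hx y hy (not_le.mp hcon).le
    apply hne
    rw [← hxi, ← hyj, h3]
  · intro x hx
    exact ⟨_, ⟨π x, rfl⟩, hx, rfl⟩

/-- The transfinite form: for every `r` there is `m` such that for every `R` there is a cover by
an `r`-disjoint family and `m` families that are `R`-disjoint, all uniformly bounded. -/
def TrasdimLEOmega {X : Type u} (d : X → X → ℝ) : Prop :=
  ∀ r : ℝ, ∃ m : ℕ, ∀ R : ℝ, ∃ 𝒰 : ℕ → Set (Set X),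
    (UBounded d (𝒰 0) ∧ RDisjoint d r (𝒰 0)) ∧
    (∀ i, 1 ≤ i → i ≤ m → UBounded d (𝒰 i) ∧ RDisjoint d R (𝒰 i)) ∧
    ∀ x, ∃ i ≤ m, ∃ U ∈ 𝒰 i, x ∈ U

lemma TrasdimLEOmega.apc {X : Type u} {d : X → X → ℝ} (h : TrasdimLEOmega d) : APC d := by
  intro R hR hmono
  obtain ⟨m, hm⟩ := h (R 0)
  obtain ⟨𝒰, h1, h2, h3⟩ := hm (R m)
  refine ⟨m + 1, 𝒰, ?_, ?_⟩
  · intro i hi
    rcases Nat.eq_zero_or_pos i with h | h
    · subst h
      exact h1
    · obtain ⟨a1, a2⟩ := h2 i h (by omega)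
      refine ⟨a1, ?_⟩
      intro U hU V hV hne
      obtain ⟨δ, hδ, hδ'⟩ := a2 U hU V hV hne
      exact ⟨δ, lt_of_le_of_lt (hmono (by omega)) hδ, hδ'⟩
  · intro x
    obtain ⟨i, hi, h⟩ := h3 x
    exact ⟨i, by omega, h⟩

/-- The main theorem: a group in which every finite set lies in a commensurated subgroup of finite
asymptotic dimension. -/
theorem trasdim_of_commensurated (hd : ProperLeftInvariantMetric d)
    (h : ∀ F : Set G, F.Finite → ∃ H : Subgroup G, F ⊆ H ∧ Commensurated H ∧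
      ∃ n, AsdimLE (fun x y : H => d x y) n) : TrasdimLEOmega d := by
  classical
  intro r
  obtain ⟨H, hF, hc, n, hn⟩ := h {g : G | d 1 g ≤ r + 1} (hd.proper _)
  let e := Fintype.equivFin (Fin n × Fin n × Fin (n + 1))
  refine ⟨Fintype.card (Fin n × Fin n × Fin (n + 1)), fun R => ?_⟩
  obtain ⟨B, S₁, S, h1, h2, h3⟩ := group_cover hd hc hn (max (max (r + 1) (R + 1)) 0)
    (le_max_right _ _)
  have hS₁ : Tame d S₁ (r + 1) B := by
    apply Tame.of_leaf (fun x => (QuotientGroup.mk x : G ⧸ H))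
    · intro q
      exact (h1 q).mono le_rfl ((le_max_left _ _).trans (le_max_left _ _)) le_rfl
    · intro x _ y _ hxy
      rw [QuotientGroup.eq]
      apply hF
      show d 1 (x⁻¹ * y) ≤ r + 1
      rw [hd.one_inv_mul]
      exact hxy
  obtain ⟨𝒰₁, a1, a2, a3⟩ := hS₁.family
  have hS : ∀ j, ∃ 𝒰 : Set (Set G), UBounded d 𝒰 ∧ RDisjoint d R 𝒰 ∧ ∀ x ∈ S j, ∃ U ∈ 𝒰, x ∈ U := by
    intro j
    obtain ⟨𝒰, b1, b2, b3⟩ := (h2 j).family
    refine ⟨𝒰, b1, b2 R ?_, b3⟩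
    have := (le_max_right (r + 1) (R + 1)).trans (le_max_left (max (r + 1) (R + 1)) 0)
    linarith
  choose 𝒮 b1 b2 b3 using hS
  refine ⟨fun i => if i = 0 then 𝒰₁ else
    if hi : i - 1 < Fintype.card (Fin n × Fin n × Fin (n + 1)) then 𝒮 (e.symm ⟨i - 1, hi⟩) else ∅,
    ?_, ?_, ?_⟩
  · simp only [if_true]
    exact ⟨a1, a2 r (by linarith)⟩
  · intro i hi1 hi2
    have hi : i - 1 < Fintype.card (Fin n × Fin n × Fin (n + 1)) := by omega
    simp only [if_neg (show i ≠ 0 by omega), dif_pos hi]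
    exact ⟨b1 _, b2 _⟩
  · intro x
    rcases h3 x with hx | ⟨j, hx⟩
    · obtain ⟨U, hU, hxU⟩ := a3 x hx
      exact ⟨0, Nat.zero_le _, U, by simpa using hU, hxU⟩
    · obtain ⟨U, hU, hxU⟩ := b3 j x hx
      refine ⟨(e j : ℕ) + 1, (e j).2, U, ?_, hxU⟩
      have hi : (e j : ℕ) + 1 - 1 < Fintype.card (Fin n × Fin n × Fin (n + 1)) := by
        have := (e j).2; omega
      simp only [if_neg (show (e j : ℕ) + 1 ≠ 0 by omega), dif_pos hi]
      have : (⟨(e j : ℕ) + 1 - 1, hi⟩ : Fin (Fintype.card (Fin n × Fin n × Fin (n + 1)))) = e j := by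
        apply Fin.ext; simp
      rw [this, Equiv.symm_apply_apply]
      exact hU

end Group

end Pool.Agent.H954R3.DU
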