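import Mathlib

set_option autoImplicit false

/-!
# Sets with bounded coarse components

`Tame d S s B` says that the set `S` splits into pieces of diameter at most `B` such that two
points of `S` at distance at most `s` are in the same piece.
-/

namespace Pool.Agent.H954R3.DU

universe u

open Finset

/-- the axioms of a pseudometric that are used -/
structure PM {X : Type u} (d : X → X → ℝ) : Prop where
  self : ∀ x, d x x = 0
  symm : ∀ x y, d x y = d y x
  tri : ∀ x y z, d x z ≤ d x y + d y z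

lemma PM.nonneg {X : Type u} {d : X → X → ℝ} (h : PM d) (x y : X) : 0 ≤ d x y := by
  have h1 := h.tri x y x
  rw [h.self, h.symm y x] at h1
  linarith

/-- `S` splits into pieces of diameter at most `B`, two points of `S` at distance at most `s` being
in the same piece. -/
def Tame {X : Type u} (d : X → X → ℝ) (S : Set X) (s B : ℝ) : Prop :=
  ∃ (ι : Type u) (π : X → ι), (∀ x ∈ S, ∀ y ∈ S, d x y ≤ s → π x = π y) ∧
    (∀ x ∈ S, ∀ y ∈ S, π x = π y → d x y ≤ B)

variable {X : Type u} {d : X → X → ℝ}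

lemma Tame.mono {S S' : Set X} {s s' B B' : ℝ} (h : Tame d S s B) (hS : S' ⊆ S) (hs : s' ≤ s)
    (hB : B ≤ B') : Tame d S' s' B' := by
  obtain ⟨ι, π, h1, h2⟩ := h
  exact ⟨ι, π, fun x hx y hy hxy => h1 x (hS hx) y (hS hy) (hxy.trans hs),
    fun x hx y hy hxy => (h2 x (hS hx) y (hS hy) hxy).trans hB⟩

lemma Tame.empty {s B : ℝ} : Tame d (∅ : Set X) s B :=
  ⟨PUnit, fun _ => PUnit.unit, fun _ h => absurd h (Set.notMem_empty _),
    fun _ h => absurd h (Set.notMem_empty _)⟩

lemma Tame.nbhd (hd : PM d) {S : Set X} {s B : ℝ} (A : ℝ) (h : Tame d S s B) :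
    Tame d {x | ∃ y ∈ S, d x y ≤ A} (s - 2 * A) (B + 2 * A) := by
  classical
  obtain ⟨ι, π, h1, h2⟩ := h
  refine ⟨ι, fun x => if h : ∃ y ∈ S, d x y ≤ A then π h.choose else π x, ?_, ?_⟩
  · rintro x hx y hy hxy
    have hx' : ∃ y ∈ S, d x y ≤ A := hx
    have hy' : ∃ z ∈ S, d y z ≤ A := hy
    simp only [dif_pos hx', dif_pos hy']
    obtain ⟨a1, a2⟩ := hx'.choose_spec
    obtain ⟨b1, b2⟩ := hy'.choose_spec
    apply h1 _ a1 _ b1
    have e1 := hd.tri hx'.choose x hy'.choose
    have e2 := hd.tri x y hy'.choose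
    rw [hd.symm hx'.choose x] at e1
    linarith
  · rintro x hx y hy hxy
    have hx' : ∃ y ∈ S, d x y ≤ A := hx
    have hy' : ∃ z ∈ S, d y z ≤ A := hy
    simp only [dif_pos hx', dif_pos hy'] at hxy
    obtain ⟨a1, a2⟩ := hx'.choose_spec
    obtain ⟨b1, b2⟩ := hy'.choose_spec
    have e := h2 _ a1 _ b1 hxy
    have e1 := hd.tri x hx'.choose y
    have e2 := hd.tri hx'.choose hy'.choose y
    rw [hd.symm hy'.choose y] at e2
    linarith

lemma Tame.union (hd : PM d) {L T : Set X} {s D B : ℝ} (hs : 0 ≤ s) (hD : 0 ≤ D) (hB : 0 ≤ B)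
    (hL : Tame d L s D) (hT : Tame d T (D + 2 * s) B) : Tame d (L ∪ T) s (B + 2 * D + 2 * s) := by
  classical
  obtain ⟨ιL, πL, l1, l2⟩ := hL
  obtain ⟨ιT, πT, t1, t2⟩ := hT
  let P : X → Prop := fun x => ∃ t ∈ T, ∃ z ∈ L, πL z = πL x ∧ d z t ≤ s
  let π : X → ιT ⊕ ιL := fun x => if x ∈ T then Sum.inl (πT x) else
    if h : P x then Sum.inl (πT h.choose) else Sum.inr (πL x)
  have hπT : ∀ x ∈ T, π x = Sum.inl (πT x) := fun x hx => if_pos hx
  have hπP : ∀ x, x ∉ T → ∀ h : P x, π x = Sum.inl (πT h.choose) := by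
    intro x hx h
    simp only [π, if_neg hx, dif_pos h]
  have hπN : ∀ x, x ∉ T → ¬ P x → π x = Sum.inr (πL x) := by
    intro x hx h
    simp only [π, if_neg hx, dif_neg h]
  -- a point outside `T` with label `inl` is near the chosen point
  have key : ∀ x ∈ L, ∀ h : P x, h.choose ∈ T ∧ d x h.choose ≤ D + s := by
    intro x hx h
    obtain ⟨a1, z, a2, a3, a4⟩ := h.choose_spec
    refine ⟨a1, ?_⟩
    have e1 := l2 x hx z a2 a3.symm
    have e2 := hd.tri x z h.choose
    linarith
  -- any two witnesses are close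
  have wit : ∀ x x', πL x = πL x' → ∀ (h : P x) (h' : P x'), πT h.choose = πT h'.choose := by
    intro x x' hxx h h'
    obtain ⟨a1, z, a2, a3, a4⟩ := h.choose_spec
    obtain ⟨b1, z', b2, b3, b4⟩ := h'.choose_spec
    apply t1 _ a1 _ b1
    have e1 := l2 z a2 z' b2 (a3.trans (hxx.trans b3.symm))
    have e2 := hd.tri h.choose z h'.choose
    have e3 := hd.tri z z' h'.choose
    rw [hd.symm h.choose z] at e2
    linarith
  refine ⟨ιT ⊕ ιL, π, ?_, ?_⟩
  · intro x hx y hy hxy
    have hT_L : ∀ x ∈ T, ∀ y ∈ L, y ∉ T → d x y ≤ s → π x = π y := by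
      intro x hxT y hyL hyT hxy
      have hP : P y := ⟨x, hxT, y, hyL, rfl, by rw [hd.symm]; exact hxy⟩
      rw [hπT x hxT, hπP y hyT hP]
      obtain ⟨a1, a2⟩ := key y hyL hP
      congr 1
      apply t1 _ hxT _ a1
      have e1 := hd.tri x y hP.choose
      linarith
    by_cases hxT : x ∈ T
    · by_cases hyT : y ∈ T
      · rw [hπT x hxT, hπT y hyT, t1 x hxT y hyT (by linarith)]
      · exact hT_L x hxT y (hy.resolve_right hyT) hyT hxy
    · by_cases hyT : y ∈ T
      · exact (hT_L y hyT x (hx.resolve_right hxT) hxT (by rw [hd.symm]; exact hxy)).symm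
      · have e := l1 x (hx.resolve_right hxT) y (hy.resolve_right hyT) hxy
        have hPP : P x ↔ P y := by
          constructor
          · rintro ⟨t, ht, z, hz, h1, h2⟩
            exact ⟨t, ht, z, hz, h1.trans e, h2⟩
          · rintro ⟨t, ht, z, hz, h1, h2⟩
            exact ⟨t, ht, z, hz, h1.trans e.symm, h2⟩
        by_cases hP : P x
        · have hP' := hPP.mp hP
          rw [hπP x hxT hP, hπP y hyT hP', wit x y e hP hP']
        · have hP' := fun h => hP (hPP.mpr h)
          rw [hπN x hxT hP, hπN y hyT hP', e]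
  · -- boundedness
    have near : ∀ x ∈ L ∪ T, ∀ i, π x = Sum.inl i → ∃ t ∈ T, πT t = i ∧ d x t ≤ D + s := by
      intro x hx i hi
      by_cases hxT : x ∈ T
      · rw [hπT x hxT] at hi
        refine ⟨x, hxT, Sum.inl.inj hi, ?_⟩
        rw [hd.self]; linarith
      · by_cases hP : P x
        · rw [hπP x hxT hP] at hi
          obtain ⟨a1, a2⟩ := key x (hx.resolve_right hxT) hP
          exact ⟨_, a1, Sum.inl.inj hi, a2⟩
        · rw [hπN x hxT hP] at hi
          exact absurd hi (by simp)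
    have far : ∀ x ∈ L ∪ T, ∀ i, π x = Sum.inr i → x ∈ L ∧ πL x = i := by
      intro x hx i hi
      by_cases hxT : x ∈ T
      · rw [hπT x hxT] at hi
        exact absurd hi (by simp)
      · by_cases hP : P x
        · rw [hπP x hxT hP] at hi
          exact absurd hi (by simp)
        · rw [hπN x hxT hP] at hi
          exact ⟨hx.resolve_right hxT, Sum.inr.inj hi⟩
    intro x hx y hy hxy
    rcases hi : π x with i | i
    · obtain ⟨t, ht, a1, a2⟩ := near x hx i hi
      obtain ⟨t', ht', b1, b2⟩ := near y hy i (hxy ▸ hi)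
      have e1 := t2 t ht t' ht' (a1.trans b1.symm)
      have e2 := hd.tri x t y
      have e3 := hd.tri t t' y
      rw [hd.symm t' y] at e3
      linarith
    · obtain ⟨a1, a2⟩ := far x hx i hi
      obtain ⟨b1, b2⟩ := far y hy i (hxy ▸ hi)
      have e1 := l2 x a1 y b1 (a2.trans b2.symm)
      linarith

/-- Union of sets with widely separated scales. -/
lemma Tame.hier (hd : PM d) {s : ℝ} (hs : 0 ≤ s) (T : ℕ → Set X) (D B : ℕ → ℝ) (h0 : D 0 = 0)
    (hB : ∀ a, 0 ≤ B a) (hD : ∀ a, D (a + 1) = B a + 2 * D a + 2 * s)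
    (hT : ∀ a, Tame d (T a) (D a + 2 * s) (B a)) (b : ℕ) :
    Tame d {x | ∃ a < b, x ∈ T a} s (D b) := by
  have hD0 : ∀ a, 0 ≤ D a := by
    intro a
    induction a with
    | zero => rw [h0]
    | succ a ih =>
      rw [hD]
      have := hB a
      linarith
  induction b with
  | zero =>
    apply Tame.empty.mono _ le_rfl le_rfl
    rintro x ⟨a, ha, -⟩
    exact absurd ha (Nat.not_lt_zero a)
  | succ b ih =>
    have h := ih.union hd hs (hD0 b) (hB b) (hT b)
    rw [hD]
    apply h.mono _ le_rfl le_rfl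
    rintro x ⟨a, ha, hx⟩
    rcases Nat.lt_succ_iff_lt_or_eq.mp ha with h' | h'
    · exact Or.inl ⟨a, h', hx⟩
    · subst h'
      exact Or.inr hx

/-- Glue tame parts of leaves to a tame set. -/
lemma Tame.of_leaf {Q : Type u} (leaf : X → Q) {S : Set X} {s B : ℝ}
    (h : ∀ q, Tame d {x | x ∈ S ∧ leaf x = q} s B)
    (hl : ∀ x ∈ S, ∀ y ∈ S, d x y ≤ s → leaf x = leaf y) : Tame d S s B := by
  choose ι π h1 h2 using h
  refine ⟨Q × Set X, fun x => (leaf x, {y | π (leaf x) y = π (leaf x) x}), ?_, ?_⟩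
  · intro x hx y hy hxy
    have e := hl x hx y hy hxy
    have e1 := h1 (leaf y) x ⟨hx, e⟩ y ⟨hy, rfl⟩ hxy
    simp only [Prod.mk.injEq]
    refine ⟨e, ?_⟩
    rw [e, e1]
  · intro x hx y hy hxy
    simp only [Prod.mk.injEq] at hxy
    obtain ⟨e1, e2⟩ := hxy
    have e3 : x ∈ {z | π (leaf y) z = π (leaf y) y} := by
      rw [← e2]
      exact (rfl : π (leaf x) x = π (leaf x) x)
    exact h2 (leaf y) x ⟨hx, e1⟩ y ⟨hy, rfl⟩ e3

/-- The Kolmogorov property: `k` tame sets such that every point is in all but at most `n` of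
them. -/
def Kol (d : X → X → ℝ) (n k : ℕ) : Prop :=
  ∀ s : ℝ, ∃ B : ℝ, ∃ V : ℕ → Set X, (∀ i < k, Tame d (V i) s B) ∧
    ∀ x, ∀ F : Finset ℕ, (∀ i ∈ F, i < k ∧ x ∉ V i) → F.card ≤ n

lemma Kol.succ (hd : PM d) {n k : ℕ} (hk : n + 1 ≤ k) (h : Kol d n k) : Kol d n (k + 1) := by
  classical
  intro s0
  -- we may assume that the scale is nonnegative
  obtain ⟨s, hs0, hs⟩ : ∃ s, s0 ≤ s ∧ 0 ≤ s := ⟨max s0 0, le_max_left _ _, le_max_right _ _⟩
  obtain ⟨B0, V, hV, hc⟩ := h (3 * s)
  obtain ⟨B, hB0, hB⟩ : ∃ B, B0 ≤ B ∧ 0 ≤ B := ⟨max B0 0, le_max_left _ _, le_max_right _ _⟩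
  let N : ℕ → Set X := fun i => {x | ∃ y ∈ V i, d x y ≤ s}
  have hVN : ∀ i, V i ⊆ N i := fun i x hx => ⟨x, hx, by rw [hd.self]; exact hs⟩
  let M : X → Finset ℕ := fun x => (range k).filter (fun i => x ∉ N i)
  let M' : X → Finset ℕ := fun x => (range k).filter (fun i => x ∉ V i)
  have hMM : ∀ x, M x ⊆ M' x := by
    intro x i hi
    rw [mem_filter] at hi ⊢
    exact ⟨hi.1, fun h => hi.2 (hVN i h)⟩
  have hM' : ∀ x, (M' x).card ≤ n := by
    intro x
    apply hc x
    intro i hi
    rw [mem_filter, mem_range] at hi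
    exact hi
  -- the new set
  let E : Set X := {x | (M x).card = n}
  have hE : ∀ x ∈ E, M x = M' x := by
    intro x hx
    apply eq_of_subset_of_card_le (hMM x)
    have e : (M x).card = n := hx
    rw [e]
    exact hM' x
  have hEclose : ∀ x ∈ E, ∀ y ∈ E, d x y ≤ s → M x = M y := by
    intro x hx y hy hxy
    -- if `i` is not missed by `x`, it is not missed by `y`
    apply Eq.symm
    apply eq_of_subset_of_card_le
    · intro i hi
      rw [mem_filter] at hi ⊢
      refine ⟨hi.1, fun hxi => hi.2 ?_⟩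
      have h1 : i ∉ M x := fun h => (mem_filter.mp h).2 hxi
      rw [hE x hx] at h1
      have h2 : x ∈ V i := by
        by_contra h3
        exact h1 (mem_filter.mpr ⟨hi.1, h3⟩)
      exact ⟨x, h2, by rw [hd.symm]; exact hxy⟩
    · have e1 : (M x).card = n := hx
      have e2 : (M y).card = n := hy
      rw [e1, e2]
  -- an index not missed
  have hidx : ∀ x ∈ E, ∃ i, i < k ∧ i ∉ M x := by
    intro x hx
    by_contra hcon
    push Not at hcon
    have h1 : range k ⊆ M x := fun i hi => hcon i (mem_range.mp hi)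
    have h2 := card_le_card h1
    have e1 : (M x).card = n := hx
    rw [card_range, e1] at h2
    omega
  have hETame : Tame d E s B := by
    have hV' : ∀ i, Tame d (if i < k then V i else ∅) (3 * s) B := by
      intro i
      split_ifs with hi
      · exact (hV i hi).mono le_rfl le_rfl hB0
      · exact Tame.empty
    choose ι π p1 p2 using hV'
    -- label
    let j : Finset ℕ → ℕ := fun F => sInf {i | i ∉ F}
    refine ⟨Finset ℕ × Set X, fun x => (M x, {y | π (j (M x)) y = π (j (M x)) x}), ?_, ?_⟩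
    · intro x hx y hy hxy
      have e := hEclose x hx y hy hxy
      simp only [Prod.mk.injEq]
      refine ⟨e, ?_⟩
      rw [e]
      have hj : ∀ z ∈ E, j (M z) < k ∧ z ∈ V (j (M z)) := by
        intro z hz
        obtain ⟨i, hi, hi'⟩ := hidx z hz
        have h1 : j (M z) ∉ M z := Nat.sInf_mem (s := {i | i ∉ M z}) ⟨i, hi'⟩
        have h2 : j (M z) < k := lt_of_le_of_lt (Nat.sInf_le hi') hi
        refine ⟨h2, ?_⟩
        rw [hE z hz] at h1
        by_contra h3
        rw [hE z hz] at h3 h2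
        exact h1 (mem_filter.mpr ⟨mem_range.mpr h2, h3⟩)
      obtain ⟨a1, a2⟩ := hj x hx
      obtain ⟨b1, b2⟩ := hj y hy
      rw [e] at a2
      have e1 := p1 (j (M y)) x (by rw [if_pos b1]; exact a2) y (by rw [if_pos b1]; exact b2)
        (by linarith)
      rw [e1]
    · intro x hx y hy hxy
      simp only [Prod.mk.injEq] at hxy
      obtain ⟨e1, e2⟩ := hxy
      have hj : ∀ z ∈ E, j (M z) < k ∧ z ∈ V (j (M z)) := by
        intro z hz
        obtain ⟨i, hi, hi'⟩ := hidx z hz
        have h1 : j (M z) ∉ M z := Nat.sInf_mem (s := {i | i ∉ M z}) ⟨i, hi'⟩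
        have h2 : j (M z) < k := lt_of_le_of_lt (Nat.sInf_le hi') hi
        refine ⟨h2, ?_⟩
        rw [hE z hz] at h1
        by_contra h3
        rw [hE z hz] at h3 h2
        exact h1 (mem_filter.mpr ⟨mem_range.mpr h2, h3⟩)
      obtain ⟨a1, a2⟩ := hj x hx
      obtain ⟨b1, b2⟩ := hj y hy
      have e3 : x ∈ {z | π (j (M y)) z = π (j (M y)) y} := by
        rw [← e2]
        exact (rfl : π (j (M x)) x = π (j (M x)) x)
      rw [e1] at a2
      exact p2 (j (M y)) x (by rw [if_pos b1]; exact a2) y (by rw [if_pos b1]; exact b2) e3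
  refine ⟨B + 2 * s, fun i => if i < k then N i else E, ?_, ?_⟩
  · intro i hi
    by_cases hik : i < k
    · simp only [if_pos hik]
      exact ((hV i hik).nbhd hd s).mono le_rfl (by linarith) (by linarith)
    · simp only [if_neg hik]
      exact hETame.mono le_rfl hs0 (by linarith)
  · intro x F hF
    have h1 : F ⊆ M x ∪ {k} := by
      intro i hi
      obtain ⟨a1, a2⟩ := hF i hi
      by_cases hik : i < k
      · simp only [if_pos hik] at a2
        exact mem_union_left _ (mem_filter.mpr ⟨mem_range.mpr hik, a2⟩)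
      · exact mem_union_right _ (by rw [mem_singleton]; omega)
    by_cases hx : x ∈ E
    · -- `k ∉ F`
      have h2 : F ⊆ M x := by
        intro i hi
        rcases mem_union.mp (h1 hi) with h | h
        · exact h
        · exfalso
          rw [mem_singleton] at h
          obtain ⟨a1, a2⟩ := hF i hi
          rw [h] at a2
          simp only [lt_irrefl, if_false] at a2
          exact a2 hx
      have e1 : (M x).card = n := hx
      rw [← e1]
      exact card_le_card h2
    · have h2 : (M x).card < n := by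
        have e1 : (M x).card ≠ n := hx
        have e2 := (card_le_card (hMM x)).trans (hM' x)
        omega
      have h3 := (card_le_card h1).trans (card_union_le _ _)
      rw [card_singleton] at h3
      omega

lemma Kol.all (hd : PM d) {n : ℕ} (h : Kol d n (n + 1)) : ∀ k, n + 1 ≤ k → Kol d n k := by
  intro k hk
  induction k, hk using Nat.le_induction with
  | base => exact h
  | succ k hk ih => exact ih.succ hd hk

/-- The robust form of the Kolmogorov property. -/
lemma Kol.robust (hd : PM d) {n k : ℕ} (h : Kol d n k) (ρ : ℝ) :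
    ∀ s : ℝ, ∃ B : ℝ, ∃ V : ℕ → Set X, (∀ i < k, Tame d (V i) s B) ∧
    ∀ x, ∀ F : Finset ℕ, (∀ i ∈ F, i < k ∧ ∃ z, d x z ≤ ρ ∧ z ∉ V i) → F.card ≤ n := by
  intro s
  obtain ⟨B, V, hV, hc⟩ := h (s + 2 * ρ)
  refine ⟨B + 2 * ρ, fun i => {x | ∃ y ∈ V i, d x y ≤ ρ}, ?_, ?_⟩
  · intro i hi
    exact ((hV i hi).nbhd hd ρ).mono le_rfl (by linarith) le_rfl
  · intro x F hF
    apply hc x F
    intro i hi
    obtain ⟨h1, z, h2, h3⟩ := hF i hi
    refine ⟨h1, fun h => h3 ⟨x, h, ?_⟩⟩
    rw [hd.symm]; exact h2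

end Pool.Agent.H954R3.DU
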